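import Mathlib
import Pool.Agent.H119R2.Kp.Defs
import Pool.Agent.H119R2.Kp.Rel

set_option autoImplicit false
set_option linter.unusedSectionVars false

/-!
MP_257582_lc: the relation for the group of the translations of `β` blocks of size `p`; the classes
are the pairs of blocks; the graph inside of the blocks and at the further vertices is fixed.
-/

namespace Pool.Agent.V5helper63.RS

open Finset
open Pool.Agent.H98R2.Ev (EV toG toG_adj)
open Pool.Agent.H119R2.Kp

variable {β : Type} [Fintype β] [DecidableEq β] {R : Type}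

/-- vertices: fixed vertices (`R`) and blocks of size `p` -/
abbrev W (β R : Type) (p : ℕ) : Type := R ⊕ (β × ZMod p)

/-- translation of block `b` -/
def tr {p : ℕ} (b : β) (t : ZMod p) : Equiv.Perm (W β R p) :=
  Equiv.sumCongr (Equiv.refl _)
    (Equiv.prodShear (Equiv.refl _) (fun b' => Equiv.addRight (if b' = b then t else 0)))

@[simp] theorem tr_inl {p : ℕ} (b : β) (t : ZMod p) (a : R) :
    tr b t (Sum.inl a : W β R p) = Sum.inl a := rfl

@[simp] theorem tr_inr {p : ℕ} (b b' : β) (t u : ZMod p) :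
    tr b t (Sum.inr (b', u) : W β R p) = Sum.inr (b', u + if b' = b then t else 0) := rfl

theorem tr_add {p : ℕ} (b : β) (t t' : ZMod p) :
    (tr b t * tr b t' : Equiv.Perm (W β R p)) = tr b (t + t') := by
  ext w
  rcases w with a | ⟨b', u⟩
  · simp
  · simp only [Equiv.Perm.mul_apply, tr_inr]
    split_ifs
    · rw [add_assoc, add_comm t']
    · simp

theorem tr_zero {p : ℕ} (b : β) : (tr b 0 : Equiv.Perm (W β R p)) = 1 := by
  ext w
  rcases w with a | ⟨b', u⟩
  · simp
  · simp

theorem tr_pow {p : ℕ} (b : β) (e : ℕ) :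
    (tr b 1 : Equiv.Perm (W β R p)) ^ e = tr b (e : ZMod p) := by
  induction e with
  | zero => simp [tr_zero]
  | succ e ih => rw [pow_succ, ih, tr_add]; simp

theorem tr_comm {p : ℕ} (b b' : β) (t t' : ZMod p) :
    (tr b t * tr b' t' : Equiv.Perm (W β R p)) = tr b' t' * tr b t := by
  ext w
  rcases w with a | ⟨b'', u⟩
  · simp
  · simp only [Equiv.Perm.mul_apply, tr_inr]
    rw [add_assoc, add_assoc, add_comm (if b'' = b' then t' else 0)]

theorem tr_mem {p : ℕ} [NeZero p] (b : β) (t : ZMod p) :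
    (tr b t : Equiv.Perm (W β R p)) ∈
      Subgroup.closure (insert 1 (Set.range (fun b : β => (tr b 1 : Equiv.Perm (W β R p))))) := by
  have h : (tr b t : Equiv.Perm (W β R p)) = (tr b 1) ^ t.val := by
    rw [tr_pow, ZMod.natCast_zmod_val]
  rw [h]
  exact Subgroup.pow_mem _ (Subgroup.subset_closure (Set.mem_insert_of_mem _
    (Set.mem_range_self (f := fun b : β => (tr b 1 : Equiv.Perm (W β R p))) b))) _

/-- complete joins of the blocks that are adjacent in `H` -/
def CG (R : Type) (p : ℕ) (H : SimpleGraph β) : SimpleGraph (W β R p) where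
  Adj
    | .inr (a, _), .inr (b, _) => H.Adj a b
    | _, _ => False
  symm := ⟨by
    rintro (u | ⟨a, u⟩) (v | ⟨b, v⟩) h
    · exact h
    · exact h
    · exact h
    · exact (show H.Adj a b from h).symm⟩
  loopless := ⟨by
    rintro (u | ⟨a, u⟩) h
    · exact h
    · exact H.loopless.irrefl _ h⟩

@[simp] theorem CG_adj {p : ℕ} (H : SimpleGraph β) (a b : β) (x y : ZMod p) :
    (CG R p H).Adj (Sum.inr (a, x)) (Sum.inr (b, y)) ↔ H.Adj a b := Iff.rfl

@[simp] theorem CG_l {p : ℕ} (H : SimpleGraph β) (a : R) (v : W β R p) :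
    ¬ (CG R p H).Adj (Sum.inl a) v := by
  rcases v with v | v <;> exact id

@[simp] theorem CG_r {p : ℕ} (H : SimpleGraph β) (a : R) (v : W β R p) :
    ¬ (CG R p H).Adj v (Sum.inl a) := by
  rcases v with v | v <;> exact id

theorem CG_tr {p : ℕ} (H : SimpleGraph β) (b : β) (t : ZMod p) (u v : W β R p)
    (h : (CG R p H).Adj u v) : (CG R p H).Adj (tr b t u) (tr b t v) := by
  rcases u with u | ⟨a, u⟩
  · exact absurd h (CG_l H _ _)
  · rcases v with v | ⟨c, v⟩
    · exact absurd h (CG_r H _ _)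
    · exact h

theorem CG_sup {p m : ℕ} (e : Fin m ≃ EV β) (I : Finset (Fin m)) :
    (⨆ j ∈ I, CG R p (toG {e j}) : SimpleGraph (W β R p)) = CG R p (toG (I.map e.toEmbedding)) := by
  ext u v
  simp only [SimpleGraph.iSup_adj]
  rcases u with u | ⟨a, u⟩
  · simp
  rcases v with v | ⟨b, v⟩
  · simp
  simp only [CG_adj, toG_adj]
  constructor
  · rintro ⟨j, hj, hab, h⟩
    refine ⟨hab, ?_⟩
    rw [Finset.mem_singleton] at h
    rw [Finset.mem_map]
    exact ⟨j, hj, h.symm⟩
  · rintro ⟨hab, h⟩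
    rw [Finset.mem_map] at h
    obtain ⟨j, hj, h⟩ := h
    refine ⟨j, hj, hab, ?_⟩
    rw [Finset.mem_singleton]
    exact h.symm

theorem card_CG [Fintype R] (p : ℕ) [NeZero p] (e : EV β) :
    p ^ 2 ≤ Nat.card (CG R p (toG {e}) : SimpleGraph (W β R p)).edgeSet := by
  classical
  obtain ⟨e, he⟩ := e
  induction e using Sym2.ind with
  | _ a b =>
    have hab : a ≠ b := by
      intro h
      exact he (by rw [Sym2.mk_isDiag_iff]; exact h)
    have hadj : (toG {(⟨s(a, b), he⟩ : EV β)}).Adj a b := by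
      rw [toG_adj]
      exact ⟨he, Finset.mem_singleton_self _⟩
    let f : ZMod p × ZMod p → (CG R p (toG {(⟨s(a, b), he⟩ : EV β)}) :
        SimpleGraph (W β R p)).edgeSet := fun x =>
      ⟨s(Sum.inr (a, x.1), Sum.inr (b, x.2)), by
        rw [SimpleGraph.mem_edgeSet]; exact hadj⟩
    have hf : Function.Injective f := by
      rintro ⟨x, y⟩ ⟨x', y'⟩ h
      have h1 := congrArg Subtype.val h
      simp only [f, Sym2.eq_iff, Sum.inr.injEq, Prod.mk.injEq] at h1
      rcases h1 with ⟨⟨-, h2⟩, ⟨-, h3⟩⟩ | ⟨⟨h2, -⟩, -⟩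
      · rw [h2, h3]
      · exact absurd h2 hab
    have h2 := Nat.card_le_card_of_injective f hf
    rw [Nat.card_prod, Nat.card_zmod] at h2
    rw [sq]
    exact h2

open Classical in
/-- the relation -/
theorem relX {n q : ℕ} {P : SimpleGraph (Fin n) → Prop} (hP : GP n q P) [Fintype R] (p : ℕ)
    [hpf : Fact p.Prime] (hn : Fintype.card R + Fintype.card β * p = n) (B : SimpleGraph (W β R p))
    (hB : ∀ b u v, B.Adj u v → B.Adj (tr b 1 u) (tr b 1 v))
    (hB0 : ∀ a b x y, a ≠ b → ¬ B.Adj (Sum.inr (a, x)) (Sum.inr (b, y)))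
    (hq : q < (Fintype.card β).choose 2 * p ^ 2) :
    ∑ I : Finset (EV β), (-1 : ℤ) ^ I.card *
      (if PV P _ (B ⊔ CG R p (toG I)) then 1 else 0) = 0 := by
  have hp0 : NeZero p := ⟨hpf.out.ne_zero⟩
  have hcard : Fintype.card (W β R p) = n := by
    rw [Fintype.card_sum, Fintype.card_prod, ZMod.card, hn]
  obtain ⟨m, hm⟩ : ∃ m, m = Fintype.card (EV β) := ⟨_, rfl⟩
  have e : Fin m ≃ EV β := (Fintype.equivFinOfCardEq hm.symm).symm
  have hmain := rel hP (V := W β R p) hcard p (fun b : β => tr b 1) 1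
    (fun i j => tr_comm i j 1 1) ?_ ?_ B (fun j => CG R p (toG {e j})) hB ?_ ?_ ?_ ?_ ?_ ?_ ?_ ?_
  · refine Eq.trans (Eq.symm ?_) hmain
    refine Fintype.sum_equiv (Equiv.finsetCongr e) _ _ ?_
    intro I
    rw [CG_sup, Equiv.finsetCongr_apply, Finset.card_map]
  · intro b
    rw [tr_pow]
    simp [tr_zero]
  · intro b
    rw [inv_one, one_mul, mul_one]
    exact Subgroup.subset_closure (Set.mem_range_self (f := fun b : β =>
      (tr b 1 : Equiv.Perm (W β R p))) b)
  · intro u v h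
    exact h
  · intro j b u v h
    exact CG_tr _ _ _ _ _ h
  · intro j u v h
    exact h
  · intro i j hij
    rw [disjoint_iff]
    ext u v
    simp only [SimpleGraph.inf_adj, SimpleGraph.bot_adj, iff_false, not_and]
    intro h1 h2
    rcases u with u | ⟨a, u⟩
    · exact CG_l _ _ _ h1
    rcases v with v | ⟨b, v⟩
    · exact CG_r _ _ _ h1
    rw [CG_adj, toG_adj] at h1 h2
    obtain ⟨h3, h4⟩ := h1
    obtain ⟨h5, h6⟩ := h2
    rw [Finset.mem_singleton] at h4 h6
    exact hij (e.injective (h4.symm.trans h6))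
  · intro i
    rw [disjoint_iff]
    ext u v
    simp only [SimpleGraph.inf_adj, SimpleGraph.bot_adj, iff_false, not_and]
    intro h1 h2
    rcases u with u | ⟨a, u⟩
    · exact CG_l _ _ _ h2
    rcases v with v | ⟨b, v⟩
    · exact CG_r _ _ _ h2
    exact hB0 a b u v (SimpleGraph.Adj.ne ((CG_adj _ _ _ _ _).1 h2)) h1
  · intro j
    obtain ⟨d, hd⟩ := e j
    induction d using Sym2.ind with
    | _ a b =>
      refine ⟨Sum.inr (a, 0), Sum.inr (b, 0), ?_⟩
      rw [CG_adj, toG_adj]
      exact ⟨hd, Finset.mem_singleton_self _⟩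
  · intro j u v u' v' h h'
    rcases u with u | ⟨a, x⟩
    · exact absurd h (CG_l _ _ _)
    rcases v with v | ⟨b, y⟩
    · exact absurd h (CG_r _ _ _)
    rcases u' with u' | ⟨a', x'⟩
    · exact absurd h' (CG_l _ _ _)
    rcases v' with v' | ⟨b', y'⟩
    · exact absurd h' (CG_r _ _ _)
    rw [CG_adj] at h h'
    have hab : a ≠ b := h.ne
    rw [toG_adj] at h h'
    obtain ⟨h3, h4⟩ := h
    obtain ⟨h5, h6⟩ := h'
    rw [Finset.mem_singleton] at h4 h6
    have h7 : s(a, b) = s(a', b') := congrArg Subtype.val (h4.trans h6.symm)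
    rw [Sym2.eq_iff] at h7
    rcases h7 with ⟨rfl, rfl⟩ | ⟨rfl, rfl⟩
    · refine ⟨tr a (x' - x) * tr b (y' - y), Subgroup.mul_mem _ (tr_mem _ _) (tr_mem _ _),
        Or.inl ⟨?_, ?_⟩⟩
      · simp [Equiv.Perm.mul_apply, hab]
      · simp [Equiv.Perm.mul_apply, hab.symm]
    · refine ⟨tr a (y' - x) * tr b (x' - y), Subgroup.mul_mem _ (tr_mem _ _) (tr_mem _ _),
        Or.inr ⟨?_, ?_⟩⟩
      · simp [Equiv.Perm.mul_apply, hab]
      · simp [Equiv.Perm.mul_apply, hab.symm]
  · have h1 : m = (Fintype.card β).choose 2 := by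
      rw [hm]
      exact Sym2.card_subtype_not_diag
    calc q < (Fintype.card β).choose 2 * p ^ 2 := hq
      _ = ∑ _j : Fin m, p ^ 2 := by
          rw [Finset.sum_const, Finset.card_univ, Fintype.card_fin, smul_eq_mul, h1]
      _ ≤ _ := Finset.sum_le_sum fun j _ => card_CG p (e j)

end Pool.Agent.V5helper63.RS
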