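import Mathlib
import Pool.Agent.H98R2.Ev.Defs

set_option autoImplicit false

/-!
MP_257582_lc: a rotation invariant family of graphs on `ZMod K`, `K` an odd prime, that contains all
nonempty rotation invariant graphs but not the empty graph has nonzero signed number.
-/

namespace Pool.Agent.V5helper63.RS

open Finset
open Pool.Agent.H98R2.Ev (EV toG ep)

/-- rotation of the pairs -/
abbrev rho (K : ℕ) : Equiv.Perm (EV (ZMod K)) := ep (Equiv.addRight (1 : ZMod K))

/-- rotation of the graphs -/
abbrev rot (K : ℕ) : Equiv.Perm (Finset (EV (ZMod K))) := Equiv.finsetCongr (rho K)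

theorem rho_mk {K : ℕ} (a b : ZMod K) (h : ¬ (s(a, b) : Sym2 (ZMod K)).IsDiag)
    (h' : ¬ (s(a + 1, b + 1) : Sym2 (ZMod K)).IsDiag) :
    rho K ⟨s(a, b), h⟩ = ⟨s(a + 1, b + 1), h'⟩ := by
  apply Subtype.ext
  rfl

theorem rho_pow {K : ℕ} (j : ℕ) (e : EV (ZMod K)) :
    ((rho K ^ j) e).1 = Sym2.map (fun x => x + (j : ZMod K)) e.1 := by
  induction j with
  | zero => simp
  | succ j ih =>
    rw [pow_succ', Equiv.Perm.mul_apply]
    change Sym2.map (Equiv.addRight (1 : ZMod K)) ((rho K ^ j) e).1 = _
    rw [ih, Sym2.map_map]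
    congr 1
    funext x
    simp [add_assoc]

theorem rho_pow_K (K : ℕ) : rho K ^ K = 1 := by
  ext e
  rw [rho_pow]
  simp

theorem rot_pow (K j : ℕ) (I : Finset (EV (ZMod K))) :
    (rot K ^ j) I = I.map (rho K ^ j).toEmbedding := by
  induction j with
  | zero =>
    ext e
    simp only [pow_zero, Finset.mem_map_equiv]
    rfl
  | succ j ih =>
    rw [pow_succ', Equiv.Perm.mul_apply, ih, pow_succ']
    rw [Equiv.finsetCongr_apply, Finset.map_map]
    rfl

theorem rot_pow_K (K : ℕ) : rot K ^ K = 1 := by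
  ext1 I
  rw [rot_pow, rho_pow_K]
  ext e
  rw [Finset.mem_map_equiv]
  rfl

theorem ne_succ {K : ℕ} (hK : 3 ≤ K) (i : ZMod K) : ¬ (s(i, i + 1) : Sym2 (ZMod K)).IsDiag := by
  rw [Sym2.mk_isDiag_iff]
  intro h
  have h1 : (1 : ZMod K) = 0 := by
    have := congrArg (fun x => x - i) h
    simpa using this.symm
  have h2 : K ∣ 1 := by
    rw [← ZMod.natCast_eq_zero_iff]
    simpa using h1
  have := Nat.le_of_dvd one_pos h2
  omega

/-- the edges of the cycle -/
def cyc (K : ℕ) [NeZero K] (hK : 3 ≤ K) : Finset (EV (ZMod K)) :=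
  Finset.univ.map ⟨fun i : ZMod K => (⟨s(i, i + 1), ne_succ hK i⟩ : EV (ZMod K)), by
    intro i j h
    have h1 := congrArg Subtype.val h
    simp only [Sym2.eq_iff] at h1
    rcases h1 with ⟨h1, -⟩ | ⟨h1, h2⟩
    · exact h1
    · exfalso
      have h3 : ((2 : ℕ) : ZMod K) = 0 := by
        have h4 : j + 1 + 1 = j := by rw [← h1]; exact h2
        have h5 := congrArg (fun x => x - j) h4
        simp only [sub_self] at h5
        push_cast
        rw [← h5]
        ring
      rw [ZMod.natCast_eq_zero_iff] at h3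
      have := Nat.le_of_dvd two_pos h3
      omega⟩

theorem card_cyc {K : ℕ} [NeZero K] (hK : 3 ≤ K) : (cyc K hK).card = K := by
  unfold cyc
  rw [Finset.card_map, Finset.card_univ, ZMod.card]

theorem rot_cyc {K : ℕ} [NeZero K] (hK : 3 ≤ K) : rot K (cyc K hK) = cyc K hK := by
  rw [Equiv.finsetCongr_apply]
  apply Finset.eq_of_subset_of_card_le
  · intro e he
    rw [Finset.mem_map] at he
    obtain ⟨e', he', rfl⟩ := he
    unfold cyc at he' ⊢
    rw [Finset.mem_map] at he' ⊢
    obtain ⟨i, -, rfl⟩ := he'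
    exact ⟨i + 1, Finset.mem_univ _, rfl⟩
  · rw [Finset.card_map]

theorem rot_symmDiff {K : ℕ} (I J : Finset (EV (ZMod K))) :
    rot K (symmDiff I J) = symmDiff (rot K I) (rot K J) := by
  rw [Equiv.finsetCongr_apply, Equiv.finsetCongr_apply, Equiv.finsetCongr_apply]
  ext e
  simp only [Finset.mem_symmDiff, Finset.mem_map_equiv]

theorem parity {α : Type} [DecidableEq α] (I J : Finset α) (hJ : Odd J.card) :
    (Even (symmDiff I J).card ↔ ¬ Even I.card) := by
  have h1 : (symmDiff I J).card + 2 * (I ∩ J).card = I.card + J.card := by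
    have h2 : (symmDiff I J).card = (I \ J).card + (J \ I).card := by
      rw [symmDiff_def, Finset.sup_eq_union, Finset.card_union_of_disjoint]
      exact disjoint_sdiff_sdiff
    have h3 := Finset.card_sdiff_add_card_inter I J
    have h4 := Finset.card_sdiff_add_card_inter J I
    rw [Finset.inter_comm J I] at h4
    omega
  have h5 : Even ((symmDiff I J).card + 2 * (I ∩ J).card) ↔ Even (symmDiff I J).card := by
    rw [Nat.even_add]
    simp
  rw [← h5, h1, Nat.even_add]
  have h6 : ¬ Even J.card := Nat.not_even_iff_odd.2 hJ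
  tauto

theorem card_even_odd {K : ℕ} [NeZero K] (hK : 3 ≤ K) (hodd : Odd K) :
    (univ.filter (fun I : Finset (EV (ZMod K)) => rot K I = I ∧ Even I.card)).card =
      (univ.filter (fun I : Finset (EV (ZMod K)) => rot K I = I ∧ ¬ Even I.card)).card := by
  have hc : Odd (cyc K hK).card := by rw [card_cyc]; exact hodd
  apply Finset.card_nbij' (fun I => symmDiff I (cyc K hK)) (fun I => symmDiff I (cyc K hK))
  · intro I hI
    simp only [Finset.coe_filter, Finset.mem_univ, true_and, Set.mem_ofPred_eq] at hI ⊢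
    refine ⟨by rw [rot_symmDiff, rot_cyc, hI.1], ?_⟩
    rw [parity _ _ hc]
    exact not_not.2 hI.2
  · intro I hI
    simp only [Finset.coe_filter, Finset.mem_univ, true_and, Set.mem_ofPred_eq] at hI ⊢
    refine ⟨by rw [rot_symmDiff, rot_cyc, hI.1], ?_⟩
    rw [parity _ _ hc]
    exact hI.2
  · intro I _
    exact symmDiff_symmDiff_cancel_right _ _
  · intro I _
    exact symmDiff_symmDiff_cancel_right _ _

theorem fixed_mod {K : ℕ} [hK : Fact K.Prime] (Q : Finset (EV (ZMod K)) → Prop) [DecidablePred Q]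
    (hQ : ∀ I, Q (rot K I) ↔ Q I) :
    (univ.filter Q).card ≡ (univ.filter (fun I => rot K I = I ∧ Q I)).card [MOD K] := by
  classical
  let f : Equiv.Perm {I // Q I} := (rot K).subtypePerm (fun I => hQ I)
  have hpow : ∀ (j : ℕ) (I : {I // Q I}), ((f ^ j) I).1 = (rot K ^ j) I.1 := by
    intro j
    induction j with
    | zero => intro I; rfl
    | succ j ih =>
      intro I
      rw [pow_succ', pow_succ', Equiv.Perm.mul_apply, Equiv.Perm.mul_apply, ← ih]
      rfl
  have hf : f ^ K ^ 1 = 1 := by
    rw [pow_one]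
    ext1 I
    apply Subtype.ext
    rw [hpow, rot_pow_K]
    rfl
  have h1 := (Equiv.Perm.card_compl_support_modEq (p := K) (n := 1) hf).symm
  have h2 : Fintype.card {I // Q I} = (univ.filter Q).card := Fintype.card_subtype Q
  have h3 : (f.supportᶜ).card =
      (univ.filter (fun I => rot K I = I ∧ Q I)).card := by
    apply Finset.card_bij (fun I _ => I.1)
    · intro I hI
      rw [Finset.mem_compl, Equiv.Perm.mem_support, not_not] at hI
      rw [Finset.mem_filter]
      exact ⟨Finset.mem_univ _, congrArg Subtype.val hI, I.2⟩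
    · intro I _ J _ h
      exact Subtype.ext h
    · intro I hI
      rw [Finset.mem_filter] at hI
      refine ⟨⟨I, hI.2.2⟩, ?_, rfl⟩
      rw [Finset.mem_compl, Equiv.Perm.mem_support, not_not]
      exact Subtype.ext hI.2.1
  rw [h2, h3] at h1
  exact h1

open Classical in
theorem signed_ne {K : ℕ} [hK : Fact K.Prime] (hK3 : 3 ≤ K) (F : Finset (EV (ZMod K)) → Prop)
    (hF : ∀ I, F (rot K I) ↔ F I) (h0 : ¬ F ∅) (h1 : ∀ I, I ≠ ∅ → rot K I = I → F I) :
    ∑ I : Finset (EV (ZMod K)), (-1 : ℤ) ^ I.card * (if F I then 1 else 0) ≠ 0 := by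
  have hodd : Odd K := hK.out.odd_of_ne_two (by omega)
  have hcard : ∀ I : Finset (EV (ZMod K)), (rot K I).card = I.card := by
    intro I
    rw [Equiv.finsetCongr_apply, Finset.card_map]
  have he := fixed_mod (K := K) (fun I => F I ∧ Even I.card) (fun I => by rw [hF, hcard])
  have ho := fixed_mod (K := K) (fun I => F I ∧ ¬ Even I.card) (fun I => by rw [hF, hcard])
  have hsum : ∑ I : Finset (EV (ZMod K)), (-1 : ℤ) ^ I.card * (if F I then 1 else 0) =
      ((univ.filter (fun I : Finset (EV (ZMod K)) => F I ∧ Even I.card)).card : ℤ) -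
        ((univ.filter (fun I : Finset (EV (ZMod K)) => F I ∧ ¬ Even I.card)).card : ℤ) := by
    rw [Finset.card_filter, Finset.card_filter]
    push_cast
    rw [← Finset.sum_sub_distrib]
    apply Finset.sum_congr rfl
    intro I _
    by_cases hI : F I
    · by_cases hev : Even I.card
      · simp [hI, hev]
      · simp [hI, hev, (Nat.not_even_iff_odd.1 hev).neg_one_pow]
    · simp [hI]
  have hb := card_even_odd hK3 hodd
  have h2 : (univ.filter (fun I : Finset (EV (ZMod K)) => rot K I = I ∧ ¬ Even I.card)).card =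
      (univ.filter (fun I : Finset (EV (ZMod K)) => rot K I = I ∧ F I ∧ ¬ Even I.card)).card := by
    congr 1
    apply Finset.filter_congr
    intro I _
    constructor
    · rintro ⟨h3, h4⟩
      refine ⟨h3, h1 I ?_ h3, h4⟩
      rintro rfl
      simp at h4
    · rintro ⟨h3, -, h4⟩
      exact ⟨h3, h4⟩
  have h5 : (univ.filter (fun I : Finset (EV (ZMod K)) => rot K I = I ∧ Even I.card)).card =
      (univ.filter (fun I : Finset (EV (ZMod K)) => rot K I = I ∧ F I ∧ Even I.card)).card + 1 := by
    have h6 : univ.filter (fun I : Finset (EV (ZMod K)) => rot K I = I ∧ Even I.card) =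
        insert ∅ (univ.filter
          (fun I : Finset (EV (ZMod K)) => rot K I = I ∧ F I ∧ Even I.card)) := by
      ext I
      simp only [Finset.mem_filter, Finset.mem_univ, true_and, Finset.mem_insert]
      constructor
      · rintro ⟨h3, h4⟩
        by_cases hI : I = ∅
        · exact Or.inl hI
        · exact Or.inr ⟨h3, h1 I hI h3, h4⟩
      · rintro (rfl | ⟨h3, -, h4⟩)
        · refine ⟨?_, by simp⟩
          rw [Equiv.finsetCongr_apply, Finset.map_empty]
        · exact ⟨h3, h4⟩
    rw [h6, Finset.card_insert_of_notMem]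
    simp only [Finset.mem_filter, Finset.mem_univ, true_and, not_and]
    intro _ h7
    exact absurd h7 h0
  intro hzero
  rw [hsum, sub_eq_zero] at hzero
  have h8 : (univ.filter (fun I : Finset (EV (ZMod K)) => F I ∧ Even I.card)).card =
      (univ.filter (fun I : Finset (EV (ZMod K)) => F I ∧ ¬ Even I.card)).card := by
    exact_mod_cast hzero
  rw [h8] at he
  have h9 := (he.symm.trans ho)
  rw [← h2, ← hb, h5] at h9
  have h10 : 0 ≡ 1 [MOD K] := by
    have h11 : 0 + (univ.filter (fun I : Finset (EV (ZMod K)) =>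
        rot K I = I ∧ F I ∧ Even I.card)).card ≡ 1 + (univ.filter
        (fun I : Finset (EV (ZMod K)) => rot K I = I ∧ F I ∧ Even I.card)).card [MOD K] := by
      rw [zero_add, add_comm 1]
      exact h9
    exact Nat.ModEq.add_right_cancel' _ h11
  have h12 : K ∣ 1 := (Nat.modEq_zero_iff_dvd).1 h10.symm
  have := Nat.le_of_dvd one_pos h12
  omega

end Pool.Agent.V5helper63.RS
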