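import Mathlib

set_option autoImplicit false
set_option linter.unusedSectionVars false

/-!
MP_257582_lc: orderings of the vertices in which vertices at distance at most `w` are adjacent
(powers of Hamiltonian paths) in graphs that are chains of cliques.
-/

namespace Pool.Agent.V5helper63.RS

open Finset

/-- the `w`-th power of the path through all vertices of `Fin n` -/
def pathPower (n w : ℕ) : SimpleGraph (Fin n) where
  Adj i j := i ≠ j ∧ (i : ℕ) ≤ j + w ∧ (j : ℕ) ≤ i + w
  symm := ⟨fun _ _ h => ⟨h.1.symm, h.2.2, h.2.1⟩⟩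
  loopless := ⟨fun _ h => h.1 rfl⟩

variable {V : Type} [DecidableEq V]

/-- vertices at distance at most `w` in the list are adjacent -/
def Bd (G : SimpleGraph V) (w : ℕ) (l : List V) : Prop :=
  ∀ (i j : ℕ) (hij : i < j) (hj : j < l.length), j ≤ i + w →
    G.Adj (l[i]'(hij.trans hj)) (l[j]'hj)

theorem Bd_clique (G : SimpleGraph V) (w : ℕ) (l : List V) (hl : l.Nodup)
    (h : ∀ x ∈ l, ∀ y ∈ l, x ≠ y → G.Adj x y) : Bd G w l := by
  intro i j hij hj _
  refine h _ (List.getElem_mem _) _ (List.getElem_mem _) ?_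
  intro he
  have := (hl.getElem_inj_iff).1 he
  omega

theorem Bd_append (G : SimpleGraph V) (w : ℕ) (A d l : List V) (hl : Bd G w (d ++ l))
    (hd : d.length = w) (hn : (A ++ d).Nodup)
    (h : ∀ x ∈ A ++ d, ∀ y ∈ A ++ d, x ≠ y → G.Adj x y) : Bd G w (A ++ (d ++ l)) := by
  intro i j hij hj hw
  rcases Nat.lt_or_ge i A.length with hi | hi
  · have hj' : j < (A ++ d).length := by
      rw [List.length_append]
      omega
    have h1 := Bd_clique G w (A ++ d) hn h i j hij hj' hw
    have e1 : (A ++ (d ++ l))[i]'(hij.trans hj) = (A ++ d)[i]'(hij.trans hj') := by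
      rw [List.getElem_append_left hi, List.getElem_append_left hi]
    have e2 : (A ++ (d ++ l))[j]'hj = (A ++ d)[j]'hj' := by
      have h3 : A ++ (d ++ l) = (A ++ d) ++ l := by rw [List.append_assoc]
      have h4 : j < ((A ++ d) ++ l).length := by rw [← h3]; exact hj
      have h5 : (A ++ (d ++ l))[j]'hj = ((A ++ d) ++ l)[j]'h4 := by
        congr 1
      rw [h5, List.getElem_append_left hj']
    rw [e1, e2]
    exact h1
  · have hj' : j - A.length < (d ++ l).length := by
      rw [List.length_append] at hj ⊢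
      rw [List.length_append] at hj
      omega
    have h1 := hl (i - A.length) (j - A.length) (by omega) hj' (by omega)
    have hjA : A.length ≤ j := by omega
    rw [List.getElem_append_right hi, List.getElem_append_right hjA]
    exact h1

theorem order {β : Type} (G : SimpleGraph V) (H : SimpleGraph β) (w : ℕ) {a b : β}
    (W : H.Walk a b) : ∀ (bl own : β → Finset V), (∀ g, bl g ⊆ own g) →
      (∀ g, ∀ x ∈ own g, ∀ y ∈ own g, x ≠ y → G.Adj x y) →
      (∀ g g', H.Adj g g' → ∀ x ∈ bl g, ∀ y ∈ bl g', x ≠ y → G.Adj x y) →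
      (∀ g, (2 * W.length + 1) * w ≤ (bl g).card) →
      ∀ D ⊆ bl a, D.card = w →
        ∃ l : List V, l.Nodup ∧ (∀ x, x ∈ l ↔ ∃ g ∈ W.support, x ∈ own g) ∧ Bd G w l ∧
          ∃ l', l = D.toList ++ l' := by
  induction W with
  | nil =>
    intro bl own h1 h2 h3 h4 D hD hw
    rename_i a
    have hn : (D.toList ++ (own a \ D).toList).Nodup := by
      rw [List.nodup_append']
      refine ⟨Finset.nodup_toList _, Finset.nodup_toList _, ?_⟩
      intro x hx hx'
      rw [Finset.mem_toList] at hx hx'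
      exact (Finset.mem_sdiff.1 hx').2 hx
    have hmem : ∀ x, x ∈ D.toList ++ (own a \ D).toList ↔ x ∈ own a := by
      intro x
      rw [List.mem_append, Finset.mem_toList, Finset.mem_toList, Finset.mem_sdiff]
      constructor
      · rintro (h | h)
        · exact h1 a (hD h)
        · exact h.1
      · intro h
        by_cases hx : x ∈ D
        · exact Or.inl hx
        · exact Or.inr ⟨h, hx⟩
    refine ⟨_, hn, ?_, ?_, _, rfl⟩
    · intro x
      rw [hmem]
      simp
    · apply Bd_clique _ _ _ hn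
      intro x hx y hy
      exact h2 a x ((hmem x).1 hx) y ((hmem y).1 hy)
  | cons h W ih =>
    intro bl own h1 h2 h3 h4 D hD hw
    rename_i a a' b
    rw [SimpleGraph.Walk.length_cons] at h4
    have h4' : ∀ g, (2 * W.length + 1) * w + 2 * w ≤ (bl g).card := by
      intro g
      have := h4 g
      nlinarith
    -- the connector
    obtain ⟨D2, hD2, hc2⟩ : ∃ D2 ⊆ bl a \ D, D2.card = w := by
      apply Finset.exists_subset_card_eq
      have h5 := Finset.le_card_sdiff D (bl a)
      have h6 := h4' a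
      rw [hw] at h5
      have h7 : 0 ≤ (2 * W.length + 1) * w := Nat.zero_le _
      omega
    obtain ⟨E, hE⟩ : ∃ E, E = D ∪ D2 := ⟨_, rfl⟩
    have hEc : E.card ≤ 2 * w := by
      rw [hE]
      refine (Finset.card_union_le _ _).trans ?_
      omega
    have h4'' : ∀ g, (2 * W.length + 1) * w ≤ (bl g \ E).card := by
      intro g
      have h5 := Finset.le_card_sdiff E (bl g)
      have h6 := h4' g
      omega
    obtain ⟨D1, hD1, hc1⟩ : ∃ D1 ⊆ bl a' \ E, D1.card = w := by
      apply Finset.exists_subset_card_eq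
      refine le_trans ?_ (h4'' a')
      nlinarith [Nat.zero_le W.length, Nat.zero_le w, Nat.zero_le (W.length * w)]
    obtain ⟨l0, hn0, hm0, hb0, l0', hl0⟩ := ih (fun g => bl g \ E) (fun g => own g \ E)
      (fun g => Finset.sdiff_subset_sdiff (h1 g) (Finset.Subset.refl _))
      (fun g x hx y hy => h2 g x (Finset.mem_sdiff.1 hx).1 y (Finset.mem_sdiff.1 hy).1)
      (fun g g' hg x hx y hy => h3 g g' hg x (Finset.mem_sdiff.1 hx).1 y (Finset.mem_sdiff.1 hy).1)
      h4'' D1 hD1 hc1
    have hl0E : ∀ x ∈ l0, x ∉ E := by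
      intro x hx
      obtain ⟨g, -, hg⟩ := (hm0 x).1 hx
      exact (Finset.mem_sdiff.1 hg).2
    have hDE : ∀ x ∈ D, x ∈ E := fun x hx => by rw [hE]; exact Finset.mem_union_left _ hx
    have hD2E : ∀ x ∈ D2, x ∈ E := fun x hx => by rw [hE]; exact Finset.mem_union_right _ hx
    have hD2bl : ∀ x ∈ D2, x ∈ bl a := fun x hx => (Finset.mem_sdiff.1 (hD2 hx)).1
    have hD2D : ∀ x ∈ D2, x ∉ D := fun x hx => (Finset.mem_sdiff.1 (hD2 hx)).2
    have hD1bl : ∀ x ∈ D1, x ∈ bl a' := fun x hx => (Finset.mem_sdiff.1 (hD1 hx)).1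
    have hD1E : ∀ x ∈ D1, x ∉ E := fun x hx => (Finset.mem_sdiff.1 (hD1 hx)).2
    obtain ⟨Q, hQ⟩ : ∃ Q, Q = own a \ (E ∪ l0.toFinset) := ⟨_, rfl⟩
    have hQa : ∀ x ∈ Q, x ∈ own a := fun x hx => by
      rw [hQ] at hx
      exact (Finset.mem_sdiff.1 hx).1
    have hQE : ∀ x ∈ Q, x ∉ E ∧ x ∉ l0 := fun x hx => by
      rw [hQ] at hx
      have h5 := (Finset.mem_sdiff.1 hx).2
      rw [Finset.mem_union, not_or, List.mem_toFinset] at h5
      exact h5
    -- first append
    have hnA : (D2.toList ++ D1.toList).Nodup := by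
      rw [List.nodup_append']
      refine ⟨Finset.nodup_toList _, Finset.nodup_toList _, ?_⟩
      intro x hx hx'
      rw [Finset.mem_toList] at hx hx'
      exact hD1E x hx' (hD2E x hx)
    have hb1 : Bd G w (D2.toList ++ l0) := by
      rw [hl0]
      apply Bd_append G w _ _ _ (hl0 ▸ hb0) (by rw [Finset.length_toList, hc1]) hnA
      intro x hx y hy hxy
      rw [List.mem_append, Finset.mem_toList, Finset.mem_toList] at hx hy
      rcases hx with hx | hx <;> rcases hy with hy | hy
      · exact h2 a x (h1 a (hD2bl x hx)) y (h1 a (hD2bl y hy)) hxy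
      · exact h3 a a' h x (hD2bl x hx) y (hD1bl y hy) hxy
      · exact (h3 a a' h y (hD2bl y hy) x (hD1bl x hx) hxy.symm).symm
      · exact h2 a' x (h1 a' (hD1bl x hx)) y (h1 a' (hD1bl y hy)) hxy
    -- second append
    have hnB : ((D.toList ++ Q.toList) ++ D2.toList).Nodup := by
      rw [List.nodup_append', List.nodup_append']
      refine ⟨⟨Finset.nodup_toList _, Finset.nodup_toList _, ?_⟩, Finset.nodup_toList _, ?_⟩
      · intro x hx hx'
        rw [Finset.mem_toList] at hx hx'
        exact (hQE x hx').1 (hDE x hx)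
      · intro x hx hx'
        rw [List.mem_append, Finset.mem_toList, Finset.mem_toList] at hx
        rw [Finset.mem_toList] at hx'
        rcases hx with hx | hx
        · exact hD2D x hx' hx
        · exact (hQE x hx).1 (hD2E x hx')
    have hb2 : Bd G w ((D.toList ++ Q.toList) ++ (D2.toList ++ l0)) := by
      apply Bd_append G w _ _ _ hb1 (by rw [Finset.length_toList, hc2]) hnB
      have hmem : ∀ x ∈ (D.toList ++ Q.toList) ++ D2.toList, x ∈ own a := by
        intro x hx
        rw [List.mem_append, List.mem_append, Finset.mem_toList, Finset.mem_toList,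
          Finset.mem_toList] at hx
        rcases hx with (hx | hx) | hx
        · exact h1 a (hD hx)
        · exact hQa x hx
        · exact h1 a (hD2bl x hx)
      intro x hx y hy
      exact h2 a x (hmem x hx) y (hmem y hy)
    refine ⟨(D.toList ++ Q.toList) ++ (D2.toList ++ l0), ?_, ?_, hb2, ?_⟩
    · rw [← List.append_assoc, List.nodup_append']
      refine ⟨hnB, hn0, ?_⟩
      intro x hx hx'
      rw [List.mem_append, List.mem_append, Finset.mem_toList, Finset.mem_toList,
        Finset.mem_toList] at hx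
      rcases hx with (hx | hx) | hx
      · exact hl0E x hx' (hDE x hx)
      · exact (hQE x hx).2 hx'
      · exact hl0E x hx' (hD2E x hx)
    · intro x
      rw [List.mem_append, List.mem_append, List.mem_append, Finset.mem_toList, Finset.mem_toList,
        Finset.mem_toList, hm0]
      rw [SimpleGraph.Walk.support_cons]
      constructor
      · rintro ((hx | hx) | (hx | ⟨g, hg, hx⟩))
        · exact ⟨a, List.mem_cons_self, h1 a (hD hx)⟩
        · exact ⟨a, List.mem_cons_self, hQa x hx⟩
        · exact ⟨a, List.mem_cons_self, h1 a (hD2bl x hx)⟩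
        · exact ⟨g, List.mem_cons_of_mem _ hg, (Finset.mem_sdiff.1 hx).1⟩
      · rintro ⟨g, hg, hx⟩
        by_cases hxE : x ∈ E
        · rw [hE, Finset.mem_union] at hxE
          rcases hxE with hxE | hxE
          · exact Or.inl (Or.inl hxE)
          · exact Or.inr (Or.inl hxE)
        · rw [List.mem_cons] at hg
          rcases hg with rfl | hg
          · by_cases hxl : x ∈ l0
            · exact Or.inr (Or.inr ((hm0 x).1 hxl))
            · refine Or.inl (Or.inr ?_)
              rw [hQ, Finset.mem_sdiff, Finset.mem_union, not_or, List.mem_toFinset]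
              exact ⟨hx, hxE, hxl⟩
          · exact Or.inr (Or.inr ⟨g, hg, Finset.mem_sdiff.2 ⟨hx, hxE⟩⟩)
    · exact ⟨Q.toList ++ (D2.toList ++ l0), by rw [List.append_assoc]⟩

theorem cover_walk {β : Type} [Fintype β] [DecidableEq β] (H : SimpleGraph β) (hH : H.Connected)
    (a : β) (s : Finset β) :
    ∃ (b : β) (W : H.Walk a b), (∀ g ∈ s, g ∈ W.support) ∧ W.length ≤ s.card * Fintype.card β := by
  induction s using Finset.induction_on with
  | empty => exact ⟨a, SimpleGraph.Walk.nil, by simp, by simp⟩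
  | insert x s hx ih =>
    obtain ⟨b, W, h1, h2⟩ := ih
    obtain ⟨W', hW'⟩ := (hH.preconnected b x).exists_isPath
    refine ⟨x, W.append W', ?_, ?_⟩
    · intro g hg
      rw [SimpleGraph.Walk.mem_support_append_iff]
      rw [Finset.mem_insert] at hg
      rcases hg with rfl | hg
      · exact Or.inr (SimpleGraph.Walk.end_mem_support _)
      · exact Or.inl (h1 g hg)
    · rw [SimpleGraph.Walk.length_append, Finset.card_insert_of_notMem hx]
      have := hW'.length_lt
      nlinarith

/-- the ordering of all vertices -/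
theorem order_all {β : Type} [Fintype β] [DecidableEq β] [Fintype V] (G : SimpleGraph V)
    (H : SimpleGraph β)
    (hH : H.Connected) (w : ℕ) (bl own : β → Finset V) (h1 : ∀ g, bl g ⊆ own g)
    (h2 : ∀ g, ∀ x ∈ own g, ∀ y ∈ own g, x ≠ y → G.Adj x y)
    (h3 : ∀ g g', H.Adj g g' → ∀ x ∈ bl g, ∀ y ∈ bl g', x ≠ y → G.Adj x y)
    (h4 : ∀ g, (2 * Fintype.card β ^ 2 + 1) * w ≤ (bl g).card)
    (h5 : ∀ x, ∃ g, x ∈ own g) :
    ∃ l : List V, l.Nodup ∧ (∀ x, x ∈ l) ∧ Bd G w l := by
  obtain ⟨a⟩ := hH.nonempty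
  obtain ⟨b, W, hW, hL⟩ := cover_walk H hH a Finset.univ
  rw [Finset.card_univ, ← sq] at hL
  have h4' : ∀ g, (2 * W.length + 1) * w ≤ (bl g).card := by
    intro g
    refine le_trans (Nat.mul_le_mul_right w ?_) (h4 g)
    omega
  obtain ⟨D, hD, hDw⟩ : ∃ D ⊆ bl a, D.card = w := by
    apply Finset.exists_subset_card_eq
    refine le_trans ?_ (h4 a)
    nlinarith [Nat.zero_le (Fintype.card β ^ 2 * w)]
  obtain ⟨l, hn, hm, hb, -⟩ := order G H w W bl own h1 h2 h3 h4' D hD hDw
  refine ⟨l, hn, fun x => ?_, hb⟩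
  obtain ⟨g, hg⟩ := h5 x
  exact (hm x).2 ⟨g, hW g (Finset.mem_univ _), hg⟩

theorem exists_equiv {n : ℕ} [Fintype V] (G : SimpleGraph V) (w : ℕ) (hn : Fintype.card V = n)
    (l : List V) (h1 : l.Nodup) (h2 : ∀ x, x ∈ l) (h3 : Bd G w l) :
    ∃ e : V ≃ Fin n, pathPower n w ≤ G.map e.toEmbedding := by
  have hlen : l.length = n := by
    rw [← hn, ← List.toFinset_card_of_nodup h1, ← Finset.card_univ]
    congr 1
    ext x
    simp [h2 x]
  subst hlen
  let e : Fin l.length ≃ V := List.Nodup.getEquivOfForallMemList l h1 h2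
  refine ⟨e.symm, ?_⟩
  have key : ∀ i j : Fin l.length, i < j → (j : ℕ) ≤ i + w → G.Adj (e i) (e j) := by
    intro i j hij hw
    exact h3 i j hij j.2 hw
  intro i j hij
  rw [SimpleGraph.map_adj]
  refine ⟨e i, e j, ?_, by simp, by simp⟩
  rcases lt_or_gt_of_ne hij.1 with h | h
  · exact key i j h hij.2.2
  · exact (key j i h hij.2.1).symm

end Pool.Agent.V5helper63.RS
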