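import Mathlib
import Pool.Agent.V5helper63.RS.A
import Pool.Agent.V5helper63.RS.B
import Pool.Agent.V5helper63.RS.C

set_option autoImplicit false
set_option linter.unusedSectionVars false

/-!
MP_257582_lc: the graphs used for the relation: `K` cliques of size `x + p`, and `s` further vertices
joined to the cliques with numbers in `Z`; the blocks of size `p` are joined along a graph on
`ZMod K`.
-/

namespace Pool.Agent.V5helper63.RS

open Finset
open Pool.Agent.H98R2.Ev (EV toG toG_adj ep)
open Pool.Agent.H119R2.Kp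

/-- the fixed vertices: `x` for every block, and `s` further ones -/
abbrev RR (K x s : ℕ) : Type := (ZMod K × Fin x) ⊕ Fin s

/-- the vertices -/
abbrev VT (K x s p : ℕ) : Type := W (ZMod K) (RR K x s) p

/-- number of the clique -/
def loc {K x s p : ℕ} : VT K x s p → Option (ZMod K)
  | .inl (.inl (g, _)) => some g
  | .inl (.inr _) => none
  | .inr (g, _) => some g

/-- base graph -/
def BG (K x s p : ℕ) (Z : ZMod K → Prop) : SimpleGraph (VT K x s p) where
  Adj u v := u ≠ v ∧ (loc u = loc v ∨ (∃ g, Z g ∧ loc u = some g ∧ loc v = none) ∨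
    (∃ g, Z g ∧ loc v = some g ∧ loc u = none))
  symm := ⟨fun _ _ h => ⟨h.1.symm, by
    rcases h.2 with h2 | h2 | h2
    · exact Or.inl h2.symm
    · exact Or.inr (Or.inr h2)
    · exact Or.inr (Or.inl h2)⟩⟩
  loopless := ⟨fun _ h => h.1 rfl⟩

/-- base graph with the blocks joined along `H` -/
def TG (K x s p : ℕ) (Z : ZMod K → Prop) (H : SimpleGraph (ZMod K)) : SimpleGraph (VT K x s p) :=
  BG K x s p Z ⊔ CG (RR K x s) p H

theorem loc_tr {K x s p : ℕ} (b : ZMod K) (t : ZMod p) (u : VT K x s p) : loc (tr b t u) = loc u := by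
  rcases u with (⟨g, i⟩ | j) | ⟨g, y⟩ <;> rfl

theorem BG_tr {K x s p : ℕ} (Z : ZMod K → Prop) (b : ZMod K) (u v : VT K x s p)
    (h : (BG K x s p Z).Adj u v) : (BG K x s p Z).Adj (tr b 1 u) (tr b 1 v) := by
  obtain ⟨h1, h2⟩ := h
  refine ⟨fun h => h1 ((tr b 1).injective h), ?_⟩
  rw [loc_tr, loc_tr]
  exact h2

theorem BG_block {K x s p : ℕ} (Z : ZMod K → Prop) (a b : ZMod K) (y z : ZMod p) (h : a ≠ b) :
    ¬ (BG K x s p Z).Adj (Sum.inr (a, y)) (Sum.inr (b, z)) := by
  rintro ⟨-, h2⟩
  simp only [loc, Option.some.injEq, reduceCtorEq, and_false, exists_false, or_false] at h2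
  exact h h2

theorem TG_adj {K x s p : ℕ} [NeZero K] (Z : ZMod K → Prop) (H : SimpleGraph (ZMod K)) (u v : VT K x s p)
    (h : (TG K x s p Z H).Adj u v) :
    loc u = loc v ∨ (∃ g, Z g ∧ loc u = some g ∧ loc v = none) ∨
      (∃ g, Z g ∧ loc v = some g ∧ loc u = none) ∨
      ∃ a b, loc u = some a ∧ loc v = some b ∧ H.Adj a b := by
  rcases h with h | h
  · rcases h.2 with h2 | h2 | h2
    · exact Or.inl h2
    · exact Or.inr (Or.inl h2)
    · exact Or.inr (Or.inr (Or.inl h2))
  · rcases u with u | ⟨a, u⟩
    · exact absurd h (CG_l _ _ _)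
    rcases v with v | ⟨b, v⟩
    · exact absurd h (CG_r _ _ _)
    exact Or.inr (Or.inr (Or.inr ⟨a, b, rfl, rfl, h⟩))

theorem const_on {V α : Type} (G : SimpleGraph V) (U : Set V) (h : (G.induce U).Connected)
    (φ : V → α) (hφ : ∀ u ∈ U, ∀ v ∈ U, G.Adj u v → φ u = φ v) :
    ∀ u ∈ U, ∀ v ∈ U, φ u = φ v := by
  intro u hu v hv
  obtain ⟨W⟩ := h.preconnected ⟨u, hu⟩ ⟨v, hv⟩
  have key : ∀ (a b : U) (W : (G.induce U).Walk a b), φ a.1 = φ b.1 := by
    intro a b W
    induction W with
    | nil => rfl
    | cons h _ ih => exact (hφ _ (Subtype.prop _) _ (Subtype.prop _) h).trans ih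
  exact key _ _ W

theorem card_VT (K x s p : ℕ) [NeZero K] [NeZero p] :
    Fintype.card (VT K x s p) = K * (x + p) + s := by
  rw [Fintype.card_sum, Fintype.card_sum, Fintype.card_prod, Fintype.card_prod, ZMod.card,
    ZMod.card, Fintype.card_fin, Fintype.card_fin]
  ring

theorem card_loc (K x s p : ℕ) [NeZero K] [NeZero p] (g : ZMod K) :
    (univ.filter (fun v : VT K x s p => loc v = some g)).card = x + p := by
  have h : univ.filter (fun v : VT K x s p => loc v = some g) =
      (univ : Finset (Fin x ⊕ ZMod p)).map ⟨fun c => match c with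
        | .inl i => (Sum.inl (Sum.inl (g, i)) : VT K x s p)
        | .inr y => Sum.inr (g, y), by
        rintro (i | i) (j | j) hij
        · simpa using hij
        · simp at hij
        · simp at hij
        · simpa using hij⟩ := by
    ext v
    simp only [Finset.mem_filter, Finset.mem_univ, true_and, Finset.mem_map,
      Function.Embedding.coeFn_mk]
    constructor
    · intro hv
      rcases v with (⟨g', i⟩ | j) | ⟨g', y⟩
      · refine ⟨Sum.inl i, ?_⟩
        simp only [loc, Option.some.injEq] at hv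
        subst hv
        rfl
      · simp [loc] at hv
      · refine ⟨Sum.inr y, ?_⟩
        simp only [loc, Option.some.injEq] at hv
        subst hv
        rfl
    · rintro ⟨c | c, rfl⟩ <;> rfl
  rw [h, Finset.card_map, Finset.card_univ, Fintype.card_sum, Fintype.card_fin, ZMod.card]

theorem card_none (K x s p : ℕ) [NeZero K] [NeZero p] :
    (univ.filter (fun v : VT K x s p => loc v = none)).card = s := by
  have h : univ.filter (fun v : VT K x s p => loc v = none) =
      (univ : Finset (Fin s)).map ⟨fun i => (Sum.inl (Sum.inr i) : VT K x s p), by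
        intro i j hij
        simpa using hij⟩ := by
    ext v
    simp only [Finset.mem_filter, Finset.mem_univ, true_and, Finset.mem_map,
      Function.Embedding.coeFn_mk]
    constructor
    · intro hv
      rcases v with (⟨g', i⟩ | j) | ⟨g', y⟩
      · simp [loc] at hv
      · exact ⟨j, rfl⟩
      · simp [loc] at hv
    · rintro ⟨i, rfl⟩
      rfl
  rw [h, Finset.card_map, Finset.card_univ, Fintype.card_fin]

/-- connected graphs on the blocks give members -/
theorem top {K x s p n w : ℕ} [NeZero K] [NeZero p] {P : SimpleGraph (Fin n) → Prop}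
    (hmono : ∀ G H : SimpleGraph (Fin n), G ≤ H → P G → P H) (hn : K * (x + p) + s = n)
    (hw : (2 * K ^ 2 + 1) * w ≤ p) (hP : P (pathPower n w)) (Z : ZMod K → Prop) (g0 : ZMod K)
    (hZ : Z g0) (H : SimpleGraph (ZMod K)) (hH : H.Connected) :
    PV P _ (TG K x s p Z H) := by
  classical
  have hord := order_all (TG K x s p Z H) H hH w
    (fun g => univ.image (fun y : ZMod p => (Sum.inr (g, y) : VT K x s p)))
    (fun g => univ.filter (fun v : VT K x s p => loc v = some g ∨ (loc v = none ∧ Z g)))
  have hl := hord (by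
      intro g v hv
      rw [Finset.mem_image] at hv
      obtain ⟨y, -, rfl⟩ := hv
      rw [Finset.mem_filter]
      exact ⟨Finset.mem_univ _, Or.inl rfl⟩) (by
      intro g u hu v hv huv
      rw [Finset.mem_filter] at hu hv
      refine Or.inl ⟨huv, ?_⟩
      rcases hu.2 with hu | ⟨hu, hZg⟩ <;> rcases hv.2 with hv | ⟨hv, hZg'⟩
      · exact Or.inl (hu.trans hv.symm)
      · exact Or.inr (Or.inl ⟨g, hZg', hu, hv⟩)
      · exact Or.inr (Or.inr ⟨g, hZg, hv, hu⟩)
      · exact Or.inl (hu.trans hv.symm)) (by
      intro g g' hgg u hu v hv huv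
      rw [Finset.mem_image] at hu hv
      obtain ⟨y, -, rfl⟩ := hu
      obtain ⟨z, -, rfl⟩ := hv
      exact Or.inr hgg) (by
      intro g
      rw [Finset.card_image_of_injective, Finset.card_univ, ZMod.card, ZMod.card]
      · exact hw
      · intro y z h
        simpa using h) (by
      intro v
      rcases v with (⟨g', i⟩ | j) | ⟨g', y⟩
      · exact ⟨g', by rw [Finset.mem_filter]; exact ⟨Finset.mem_univ _, Or.inl rfl⟩⟩
      · exact ⟨g0, by rw [Finset.mem_filter]; exact ⟨Finset.mem_univ _, Or.inr ⟨rfl, hZ⟩⟩⟩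
      · exact ⟨g', by rw [Finset.mem_filter]; exact ⟨Finset.mem_univ _, Or.inl rfl⟩⟩)
  obtain ⟨l, h1, h2, h3⟩ := hl
  obtain ⟨e, he⟩ := exists_equiv (n := n) (TG K x s p Z H) w (by rw [card_VT, hn]) l h1 h2 h3
  exact ⟨e, hmono _ _ he hP⟩

theorem ncard_le {K x s p n : ℕ} [NeZero K] [NeZero p] (e : VT K x s p ≃ Fin n)
    (U : Set (Fin n)) (Q : VT K x s p → Prop) [DecidablePred Q] (h : ∀ u ∈ U, Q (e.symm u)) :
    U.ncard ≤ (univ.filter Q).card := by
  have h1 : U ⊆ ((univ.filter Q).map e.toEmbedding : Finset (Fin n)) := by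
    intro u hu
    rw [Finset.mem_coe, Finset.mem_map]
    exact ⟨e.symm u, by rw [Finset.mem_filter]; exact ⟨Finset.mem_univ _, h u hu⟩, by simp⟩
  have h2 := Set.ncard_le_ncard h1 (Finset.finite_toSet _)
  rw [Set.ncard_coe_finset, Finset.card_map] at h2
  exact h2

/-- case (a): graphs on the blocks that are not connected do not give members -/
theorem bot_a {K x s p n : ℕ} [NeZero K] [NeZero p] {P : SimpleGraph (Fin n) → Prop}
    (hn : K * (x + p) + s = n)
    (hP : ∀ G, P G → ∃ U : Set (Fin n), n - (x + p) < U.ncard ∧ (G.induce U).Connected)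
    (H : SimpleGraph (ZMod K)) (hH : ¬ H.Connected) :
    ¬ PV P _ (TG K x s p (fun g => g = 0) H) := by
  classical
  rintro ⟨e, he⟩
  obtain ⟨U, hU, hc⟩ := hP _ he
  have hg1 : ∃ g1, ¬ H.Reachable 0 g1 := by
    by_contra hcon
    push Not at hcon
    apply hH
    have : Nonempty (ZMod K) := ⟨0⟩
    exact ⟨fun a b => (hcon a).symm.trans (hcon b)⟩
  obtain ⟨g1, hg1⟩ := hg1
  let Q : VT K x s p → Prop := fun v => ∃ g, loc v = some g ∧ ¬ H.Reachable 0 g
  have hQ : ∀ u v, (TG K x s p (fun g => g = 0) H).Adj u v → (Q u ↔ Q v) := by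
    intro u v huv
    rcases TG_adj _ _ _ _ huv with h | ⟨g, h1, h2, h3⟩ | ⟨g, h1, h2, h3⟩ | ⟨a, b, h1, h2, h3⟩
    · simp only [Q, h]
    · subst h1
      simp only [Q, h2, h3, Option.some.injEq, reduceCtorEq, false_and, exists_false, iff_false,
        not_exists, not_and, not_not]
      rintro g rfl
      exact SimpleGraph.Reachable.refl _
    · subst h1
      simp only [Q, h2, h3, Option.some.injEq, reduceCtorEq, false_and, exists_false, false_iff,
        not_exists, not_and, not_not]
      rintro g rfl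
      exact SimpleGraph.Reachable.refl _
    · simp only [Q, h1, h2, Option.some.injEq, exists_eq_left']
      constructor
      · intro h4 h5
        exact h4 (h5.trans h3.symm.reachable)
      · intro h4 h5
        exact h4 (h5.trans h3.reachable)
  have hconst := const_on _ U hc (fun u => Q (e.symm u)) (by
    intro u _ v _ huv
    rw [SimpleGraph.map_adj] at huv
    obtain ⟨a, b, hab, rfl, rfl⟩ := huv
    simp only [Equiv.coe_toEmbedding, Equiv.symm_apply_apply]
    exact propext (hQ a b hab))
  have hne : U.Nonempty := by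
    rw [← Set.ncard_pos (Set.toFinite _)]
    omega
  obtain ⟨u0, hu0⟩ := hne
  have hcard := card_VT K x s p
  rw [hn] at hcard
  by_cases hQ0 : Q (e.symm u0)
  · have h1 := ncard_le e U Q (fun u hu => by
      have h9 : Q (e.symm u0) = Q (e.symm u) := hconst u0 hu0 u hu
      rwa [← h9])
    have h2 : (univ.filter Q).card + (univ.filter (fun v : VT K x s p => loc v = some 0)).card ≤
        Fintype.card (VT K x s p) := by
      rw [← Finset.card_union_of_disjoint, ← Finset.card_univ]
      · exact Finset.card_le_card (Finset.subset_univ _)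
      · rw [Finset.disjoint_filter]
        rintro v - ⟨g, h3, h4⟩ h5
        rw [h5, Option.some.injEq] at h3
        subst h3
        exact h4 (SimpleGraph.Reachable.refl _)
    rw [card_loc, hcard] at h2
    omega
  · have h1 := ncard_le e U (fun v => ¬ Q v) (fun u hu => by
      have h9 : Q (e.symm u0) = Q (e.symm u) := hconst u0 hu0 u hu
      rwa [← h9])
    have h2 : (univ.filter (fun v => ¬ Q v)).card +
        (univ.filter (fun v : VT K x s p => loc v = some g1)).card ≤
        Fintype.card (VT K x s p) := by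
      rw [← Finset.card_union_of_disjoint, ← Finset.card_univ]
      · exact Finset.card_le_card (Finset.subset_univ _)
      · rw [Finset.disjoint_filter]
        rintro v - h3 h5
        exact h3 ⟨g1, h5, hg1⟩
    rw [card_loc, hcard] at h2
    omega

/-- case (b): no blocks joined -/
theorem bot_b {K x s p n : ℕ} [NeZero K] [NeZero p] {P : SimpleGraph (Fin n) → Prop}
    (hP : ∀ G, P G → ∀ S : Set (Fin n), S.ncard = s →
      ∃ U : Set (Fin n), Disjoint U S ∧ x + p < U.ncard ∧ (G.induce U).Connected) :
    ¬ PV P _ (TG K x s p (fun _ => True) ⊥) := by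
  classical
  rintro ⟨e, he⟩
  obtain ⟨U, hd, hU, hc⟩ := hP _ he
    (((univ.filter (fun v : VT K x s p => loc v = none)).map e.toEmbedding : Finset (Fin n)) :
      Set (Fin n)) (by rw [Set.ncard_coe_finset, Finset.card_map, card_none])
  have hnone : ∀ u ∈ U, loc (e.symm u) ≠ none := by
    intro u hu h
    refine Set.disjoint_left.1 hd hu ?_
    rw [Finset.mem_coe, Finset.mem_map]
    exact ⟨e.symm u, by rw [Finset.mem_filter]; exact ⟨Finset.mem_univ _, h⟩, by simp⟩
  have hconst := const_on _ U hc (fun u => loc (e.symm u)) (by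
    intro u hu v hv huv
    have hu' := hnone u hu
    have hv' := hnone v hv
    rw [SimpleGraph.map_adj] at huv
    obtain ⟨a, b, hab, rfl, rfl⟩ := huv
    simp only [Equiv.coe_toEmbedding, Equiv.symm_apply_apply] at hu' hv' ⊢
    rcases TG_adj _ _ _ _ hab with h | ⟨g, h1, h2, h3⟩ | ⟨g, h1, h2, h3⟩ | ⟨a, b, h1, h2, h3⟩
    · exact h
    · exact absurd h3 hv'
    · exact absurd h3 hu'
    · exact absurd h3 (by simp))
  have hne : U.Nonempty := by
    rw [← Set.ncard_pos (Set.toFinite _)]
    omega
  obtain ⟨u0, hu0⟩ := hne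
  obtain ⟨g, hg⟩ := Option.ne_none_iff_exists'.1 (hnone u0 hu0)
  have h1 := ncard_le e U (fun v : VT K x s p => loc v = some g) (fun u hu => by
    rw [← hg]
    exact (hconst u0 hu0 u hu).symm)
  rw [card_loc] at h1
  omega

theorem PV_map {n : ℕ} (P : SimpleGraph (Fin n) → Prop) {V V' : Type} (ψ : V ≃ V')
    (G : SimpleGraph V) : PV P V' (G.map ψ.toEmbedding) ↔ PV P V G := by
  constructor
  · rintro ⟨e, he⟩
    refine ⟨ψ.trans e, ?_⟩
    rw [SimpleGraph.map_map] at he
    exact he
  · rintro ⟨e, he⟩
    refine ⟨ψ.symm.trans e, ?_⟩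
    rw [SimpleGraph.map_map]
    have h : (⇑(ψ.symm.trans e).toEmbedding ∘ ⇑ψ.toEmbedding) = ⇑e.toEmbedding := by
      funext v
      simp
    rw [h]
    exact he

theorem toG_rot {K : ℕ} (I : Finset (EV (ZMod K))) (a b : ZMod K) :
    (toG (rot K I)).Adj (a + 1) (b + 1) ↔ (toG I).Adj a b := by
  rw [toG_adj, toG_adj]
  have hd : (s(a + 1, b + 1) : Sym2 (ZMod K)).IsDiag ↔ (s(a, b) : Sym2 (ZMod K)).IsDiag := by
    rw [Sym2.mk_isDiag_iff, Sym2.mk_isDiag_iff]
    exact add_left_inj 1
  constructor
  · rintro ⟨h1, h2⟩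
    have h1' := fun h => h1 (hd.2 h)
    refine ⟨h1', ?_⟩
    rw [Equiv.finsetCongr_apply, Finset.mem_map] at h2
    obtain ⟨e, he, h3⟩ := h2
    have h4 : e = ⟨s(a, b), h1'⟩ := by
      apply (rho K).injective
      exact h3
    rw [← h4]
    exact he
  · rintro ⟨h1, h2⟩
    have h1' := fun h => h1 (hd.1 h)
    refine ⟨h1', ?_⟩
    rw [Equiv.finsetCongr_apply, Finset.mem_map]
    exact ⟨⟨s(a, b), h1⟩, h2, rfl⟩

/-- rotation of the vertices -/
def rv (K x s p : ℕ) : VT K x s p ≃ VT K x s p :=
  Equiv.sumCongr (Equiv.sumCongr (Equiv.prodCongr (Equiv.addRight 1) (Equiv.refl _))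
    (Equiv.refl _)) (Equiv.prodCongr (Equiv.addRight 1) (Equiv.refl _))

theorem loc_rv {K x s p : ℕ} (u : VT K x s p) :
    loc (rv K x s p u) = (loc u).map (fun g => g + 1) := by
  rcases u with (⟨g, i⟩ | j) | ⟨g, y⟩ <;> rfl

theorem TG_rot {K x s p : ℕ} [NeZero K] (I : Finset (EV (ZMod K))) :
    TG K x s p (fun _ => True) (toG (rot K I)) =
      (TG K x s p (fun _ => True) (toG I)).map (rv K x s p).toEmbedding := by
  have key : ∀ u v, (TG K x s p (fun _ => True) (toG (rot K I))).Adj (rv K x s p u)
      (rv K x s p v) ↔ (TG K x s p (fun _ => True) (toG I)).Adj u v := by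
    intro u v
    have h1 : (BG K x s p (fun _ => True)).Adj (rv K x s p u) (rv K x s p v) ↔
        (BG K x s p (fun _ => True)).Adj u v := by
      have hinj : Function.Injective (fun g : ZMod K => g + 1) := fun a b h => by simpa using h
      unfold BG
      simp only [loc_rv, ne_eq, EmbeddingLike.apply_eq_iff_eq, true_and]
      rcases loc u with _ | a <;> rcases loc v with _ | b <;> simp
    have h2 : (CG (RR K x s) p (toG (rot K I))).Adj (rv K x s p u) (rv K x s p v) ↔
        (CG (RR K x s) p (toG I)).Adj u v := by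
      rcases u with u | ⟨a, u⟩
      · constructor
        · intro h
          rcases u with u | u <;> exact absurd h (CG_l _ _ _)
        · intro h
          exact absurd h (CG_l _ _ _)
      rcases v with v | ⟨b, v⟩
      · constructor
        · intro h
          rcases v with v | v <;> exact absurd h (CG_r _ _ _)
        · intro h
          exact absurd h (CG_r _ _ _)
      exact toG_rot I a b
    change (_ ∨ _) ↔ (_ ∨ _)
    rw [h1, h2]
  ext u v
  rw [SimpleGraph.map_adj]
  constructor
  · intro h
    refine ⟨(rv K x s p).symm u, (rv K x s p).symm v, ?_, by simp, by simp⟩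
    rw [← key]
    simpa using h
  · rintro ⟨a, b, h, rfl, rfl⟩
    exact (key a b).2 h

theorem conn_rot {K : ℕ} (I : Finset (EV (ZMod K))) :
    (toG (rot K I)).Connected ↔ (toG I).Connected := by
  let φ : toG I ≃g toG (rot K I) :=
    { toEquiv := Equiv.addRight 1
      map_rel_iff' := by
        intro a b
        exact toG_rot I a b }
  exact φ.connected_iff.symm

theorem conn_of_fixed {K : ℕ} [hK : Fact K.Prime] (I : Finset (EV (ZMod K))) (h0 : I ≠ ∅)
    (hI : rot K I = I) : (toG I).Connected := by
  obtain ⟨⟨e, he⟩, heI⟩ := Finset.nonempty_iff_ne_empty.2 h0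
  induction e using Sym2.ind with
  | _ a b =>
    have hab : (toG I).Adj a b := by
      rw [toG_adj]
      exact ⟨he, heI⟩
    have hstep : ∀ j : ℕ, (toG I).Adj (a + j) (b + j) := by
      intro j
      induction j with
      | zero => simpa using hab
      | succ j ih =>
        have h1 := (toG_rot I _ _).2 ih
        rw [hI] at h1
        push_cast
        rw [← add_assoc, ← add_assoc]
        exact h1
    have hstep' : ∀ c : ZMod K, (toG I).Adj c (c + (b - a)) := by
      intro c
      have h1 := hstep (c - a).val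
      rw [ZMod.natCast_zmod_val] at h1
      have e1 : a + (c - a) = c := by ring
      have e2 : b + (c - a) = c + (b - a) := by ring
      rw [e1, e2] at h1
      exact h1
    have hreach : ∀ (j : ℕ), (toG I).Reachable 0 (j * (b - a)) := by
      intro j
      induction j with
      | zero => simp
      | succ j ih =>
        refine ih.trans ?_
        have h1 := (hstep' ((j : ZMod K) * (b - a))).reachable
        push_cast
        rw [add_mul, one_mul]
        exact h1
    have hd : b - a ≠ 0 := sub_ne_zero.2 hab.ne.symm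
    have hall : ∀ g, (toG I).Reachable 0 g := by
      intro g
      have h1 := hreach (g / (b - a)).val
      rw [ZMod.natCast_zmod_val, div_mul_cancel₀ _ hd] at h1
      exact h1
    have : Nonempty (ZMod K) := ⟨0⟩
    exact ⟨fun u v => (hall u).symm.trans (hall v)⟩

theorem toG_empty {K : ℕ} : toG (∅ : Finset (EV (ZMod K))) = ⊥ := by
  ext u v
  rw [toG_adj]
  simp

theorem not_conn_empty {K : ℕ} (hK : 3 ≤ K) : ¬ (toG (∅ : Finset (EV (ZMod K)))).Connected := by
  rw [toG_empty]
  intro h
  have h1 := h.preconnected 0 1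
  rw [SimpleGraph.reachable_bot] at h1
  have : Fact (1 < K) := ⟨by omega⟩
  exact zero_ne_one h1

theorem main {K n q : ℕ} [hKp : Fact K.Prime] (hK : 3 ≤ K) {P : SimpleGraph (Fin n) → Prop}
    (hP : GP n q P) (x s p w : ℕ) [hp : Fact p.Prime] (hn : K * (x + p) + s = n)
    (hw : (2 * K ^ 2 + 1) * w ≤ p) (hq : q < K.choose 2 * p ^ 2) (htop : P (pathPower n w))
    (hbot : (∀ G, P G → ∃ U : Set (Fin n), n - (x + p) < U.ncard ∧ (G.induce U).Connected) ∨
      (∀ G, P G → ∀ S : Set (Fin n), S.ncard = s →
        ∃ U : Set (Fin n), Disjoint U S ∧ x + p < U.ncard ∧ (G.induce U).Connected)) : False := by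
  classical
  have hK0 : NeZero K := ⟨hKp.out.ne_zero⟩
  have hp0 : NeZero p := ⟨hp.out.ne_zero⟩
  have hcard : Fintype.card (RR K x s) + Fintype.card (ZMod K) * p = n := by
    rw [Fintype.card_sum, Fintype.card_prod, ZMod.card, Fintype.card_fin, Fintype.card_fin, ← hn]
    ring
  rcases hbot with hbot | hbot
  · have hrel := relX hP p hcard (BG K x s p (fun g => g = 0)) (BG_tr _)
      (fun a b y z h => BG_block _ a b y z h) (by rw [ZMod.card]; exact hq)
    refine signed_ne hK (fun I => PV P _ (BG K x s p (fun g => g = 0) ⊔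
      CG (RR K x s) p (toG I))) ?_ ?_ ?_ hrel
    · intro I
      have key : ∀ J : Finset (EV (ZMod K)), PV P _ (BG K x s p (fun g => g = 0) ⊔
          CG (RR K x s) p (toG J)) ↔ (toG J).Connected := by
        intro J
        constructor
        · intro h
          by_contra hcon
          exact bot_a hn hbot (toG J) hcon h
        · intro h
          exact top hP.mono hn hw htop (fun g => g = 0) 0 rfl _ h
      rw [key, key]
      exact conn_rot I
    · exact bot_a hn hbot _ (not_conn_empty hK)
    · intro I h0 hI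
      exact top hP.mono hn hw htop (fun g => g = 0) 0 rfl _ (conn_of_fixed I h0 hI)
  · have hrel := relX hP p hcard (BG K x s p (fun _ => True)) (BG_tr _)
      (fun a b y z h => BG_block _ a b y z h) (by rw [ZMod.card]; exact hq)
    refine signed_ne hK (fun I => PV P _ (BG K x s p (fun _ => True) ⊔
      CG (RR K x s) p (toG I))) ?_ ?_ ?_ hrel
    · intro I
      have h1 := TG_rot (K := K) (x := x) (s := s) (p := p) I
      unfold TG at h1
      rw [h1, PV_map]
    · rw [toG_empty]
      exact bot_b hbot
    · intro I h0 hI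
      exact top hP.mono hn hw htop (fun _ => True) 0 trivial _ (conn_of_fixed I h0 hI)

end Pool.Agent.V5helper63.RS
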