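import Mathlib
import Pool.Agent.V5helper63.RS.D

set_option autoImplicit false
set_option linter.unusedSectionVars false

/-!
MP_257582_lc: the explicit graphs: two disjoint cliques; `K` cliques and some universal vertices.
-/

namespace Pool.Agent.V5helper63.RS

open Finset
open Pool.Agent.H98R2.Ev (EV toG toG_adj ep)
open Pool.Agent.H119R2.Kp

/-- the disjoint union of a clique on the first `a` vertices and a clique on the other vertices -/
def twoCliques (n a : ℕ) : SimpleGraph (Fin n) where
  Adj u v := u ≠ v ∧ ((u : ℕ) < a ↔ (v : ℕ) < a)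
  symm := ⟨fun _ _ h => ⟨h.1.symm, h.2.symm⟩⟩
  loopless := ⟨fun _ h => h.1 rfl⟩

/-- `K` disjoint cliques with `n / K` vertices each; the remaining `n % K` vertices are adjacent to
all vertices -/
def cliquesCone (n K : ℕ) : SimpleGraph (Fin n) where
  Adj u v := u ≠ v ∧ ((u : ℕ) / (n / K) = (v : ℕ) / (n / K) ∨ K * (n / K) ≤ (u : ℕ) ∨
    K * (n / K) ≤ (v : ℕ))
  symm := ⟨fun _ _ h => ⟨h.1.symm, by
    rcases h.2 with h2 | h2 | h2
    · exact Or.inl h2.symm
    · exact Or.inr (Or.inr h2)
    · exact Or.inr (Or.inl h2)⟩⟩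
  loopless := ⟨fun _ h => h.1 rfl⟩

theorem card_lt (n a : ℕ) (h : a ≤ n) : Fintype.card {i : Fin n // (i : ℕ) < a} = a := by
  rw [Fintype.card_subtype]
  have h1 : (univ.filter (fun i : Fin n => (i : ℕ) < a)) =
      (univ : Finset (Fin a)).map ⟨fun i => Fin.castLE h i, Fin.castLE_injective h⟩ := by
    ext i
    simp only [Finset.mem_filter, Finset.mem_univ, true_and, Finset.mem_map,
      Function.Embedding.coeFn_mk]
    constructor
    · intro hi
      exact ⟨⟨i, hi⟩, by ext; rfl⟩
    · rintro ⟨j, rfl⟩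
      exact j.2
  rw [h1, Finset.card_map, Finset.card_univ, Fintype.card_fin]

theorem exists_equiv_pred {V : Type} [Fintype V] {n a : ℕ} (hn : Fintype.card V = n) (Q : V → Prop)
    [DecidablePred Q] (ha : (univ.filter Q).card = a) :
    ∃ e : V ≃ Fin n, ∀ v, Q v ↔ (e v : ℕ) < a := by
  have han : a ≤ n := by
    rw [← ha, ← hn]
    exact Finset.card_le_univ _
  have h1 : Fintype.card {v // Q v} = Fintype.card {i : Fin n // (i : ℕ) < a} := by
    rw [card_lt n a han, Fintype.card_subtype, ha]
  have h2 : Fintype.card {v // ¬ Q v} = Fintype.card {i : Fin n // ¬ (i : ℕ) < a} := by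
    rw [Fintype.card_subtype_compl, Fintype.card_subtype_compl, h1, hn, Fintype.card_fin]
  let e1 := Fintype.equivOfCardEq h1
  let e2 := Fintype.equivOfCardEq h2
  refine ⟨(Equiv.sumCompl Q).symm.trans ((Equiv.sumCongr e1 e2).trans
    (Equiv.sumCompl (fun i : Fin n => (i : ℕ) < a))), fun v => ?_⟩
  by_cases hv : Q v
  · simp only [Equiv.trans_apply, Equiv.sumCompl_symm_apply_of_pos hv, Equiv.sumCongr_apply,
      Sum.map_inl, Equiv.sumCompl_apply_inl, hv, true_iff]
    exact (e1 ⟨v, hv⟩).2
  · simp only [Equiv.trans_apply, Equiv.sumCompl_symm_apply_of_neg hv, Equiv.sumCongr_apply,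
      Sum.map_inr, Equiv.sumCompl_apply_inr, hv, false_iff]
    exact (e2 ⟨v, hv⟩).2

/-- membership of a graph does not depend on the numbering -/
theorem PV_le {n : ℕ} {P : SimpleGraph (Fin n) → Prop}
    (hmono : ∀ G H : SimpleGraph (Fin n), G ≤ H → P G → P H)
    (hiso : ∀ (σ : Fin n ≃ Fin n) (G : SimpleGraph (Fin n)), P G → P (G.map σ.toEmbedding))
    {V : Type} (G : SimpleGraph V) (hG : PV P V G) (e : V ≃ Fin n) (H : SimpleGraph (Fin n))
    (h : ∀ u v, G.Adj u v → H.Adj (e u) (e v)) : P H := by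
  obtain ⟨e0, h0⟩ := hG
  have h1 := hiso (e0.symm.trans e) _ h0
  refine hmono _ _ ?_ h1
  intro u v huv
  rw [SimpleGraph.map_adj] at huv
  obtain ⟨a, b, hab, rfl, rfl⟩ := huv
  rw [SimpleGraph.map_adj] at hab
  obtain ⟨a', b', hab', rfl, rfl⟩ := hab
  simpa using h a' b' hab'

theorem bot_a' {K x s p n : ℕ} [NeZero K] [NeZero p] {P : SimpleGraph (Fin n) → Prop}
    (hmono : ∀ G H : SimpleGraph (Fin n), G ≤ H → P G → P H)
    (hiso : ∀ (σ : Fin n ≃ Fin n) (G : SimpleGraph (Fin n)), P G → P (G.map σ.toEmbedding))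
    (hn : K * (x + p) + s = n)
    (hP : ∀ j, 1 ≤ j → j < K → ¬ P (twoCliques n (j * (x + p))))
    (H : SimpleGraph (ZMod K)) (hH : ¬ H.Connected) :
    ¬ PV P _ (TG K x s p (fun g => g = 0) H) := by
  classical
  intro hPV
  have hg1 : ∃ g1, ¬ H.Reachable 0 g1 := by
    by_contra hcon
    push Not at hcon
    apply hH
    have : Nonempty (ZMod K) := ⟨0⟩
    exact ⟨fun a b => (hcon a).symm.trans (hcon b)⟩
  obtain ⟨g1, hg1⟩ := hg1
  let N : Finset (ZMod K) := univ.filter (fun g => ¬ H.Reachable 0 g)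
  let Q : VT K x s p → Prop := fun v => ∃ g, loc v = some g ∧ ¬ H.Reachable 0 g
  have hQ : ∀ u v, (TG K x s p (fun g => g = 0) H).Adj u v → (Q u ↔ Q v) := by
    intro u v huv
    rcases TG_adj _ _ _ _ huv with h | ⟨g, h1, h2, h3⟩ | ⟨g, h1, h2, h3⟩ | ⟨a, b, h1, h2, h3⟩
    · simp only [Q, h]
    · subst h1
      simp only [Q, h2, h3, Option.some.injEq, reduceCtorEq, false_and, exists_false, iff_false,
        not_exists, not_and, not_not]
      rintro g rfl
      exact SimpleGraph.Reachable.refl _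
    · subst h1
      simp only [Q, h2, h3, Option.some.injEq, reduceCtorEq, false_and, exists_false, false_iff,
        not_exists, not_and, not_not]
      rintro g rfl
      exact SimpleGraph.Reachable.refl _
    · simp only [Q, h1, h2, Option.some.injEq, exists_eq_left']
      constructor
      · intro h4 h5
        exact h4 (h5.trans h3.symm.reachable)
      · intro h4 h5
        exact h4 (h5.trans h3.reachable)
  have hcard : (univ.filter Q).card = N.card * (x + p) := by
    have h1 : univ.filter Q = N.biUnion (fun g => univ.filter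
        (fun v : VT K x s p => loc v = some g)) := by
      ext v
      simp only [Finset.mem_filter, Finset.mem_univ, true_and, Finset.mem_biUnion, Q, N]
      constructor
      · rintro ⟨g, h2, h3⟩
        exact ⟨g, h3, h2⟩
      · rintro ⟨g, h3, h2⟩
        exact ⟨g, h2, h3⟩
    rw [h1, Finset.card_biUnion, Finset.sum_congr rfl (fun g _ => card_loc K x s p g),
      Finset.sum_const, smul_eq_mul]
    intro g _ g' _ hgg
    simp only [Function.onFun]
    rw [Finset.disjoint_filter]
    intro v _ h2 h3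
    exact hgg (Option.some.inj (h2.symm.trans h3))
  have hN1 : 1 ≤ N.card := by
    rw [Nat.one_le_iff_ne_zero, ← Nat.pos_iff_ne_zero, Finset.card_pos]
    exact ⟨g1, by rw [Finset.mem_filter]; exact ⟨Finset.mem_univ _, hg1⟩⟩
  have hN2 : N.card < K := by
    have h1 : N.card < (univ : Finset (ZMod K)).card := by
      apply Finset.card_lt_card
      rw [Finset.ssubset_univ_iff]
      intro h
      have h2 : (0 : ZMod K) ∈ N := by rw [h]; exact Finset.mem_univ _
      rw [Finset.mem_filter] at h2
      exact h2.2 (SimpleGraph.Reachable.refl _)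
    rwa [Finset.card_univ, ZMod.card] at h1
  obtain ⟨e, he⟩ := exists_equiv_pred (n := n) (by rw [card_VT, hn]) Q hcard
  refine hP N.card hN1 hN2 (PV_le hmono hiso _ hPV e _ ?_)
  intro u v huv
  refine ⟨fun h => huv.ne (e.injective h), ?_⟩
  rw [← he, ← he]
  exact hQ u v huv

/-- numbering of the vertices for case (b) -/
noncomputable def eb (K x s p : ℕ) [NeZero K] [NeZero p] : VT K x s p ≃ Fin (K * (x + p) + s) :=
  ((Equiv.sumAssoc _ _ _).trans ((Equiv.sumCongr (Equiv.refl _) (Equiv.sumComm _ _)).trans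
    (Equiv.sumAssoc _ _ _).symm)).trans
    ((Equiv.sumCongr ((Equiv.prodSumDistrib (ZMod K) (Fin x) (ZMod p)).symm.trans
      ((Equiv.prodCongr (Fintype.equivFinOfCardEq (ZMod.card K))
        (Fintype.equivFinOfCardEq (by
          rw [Fintype.card_sum, Fintype.card_fin, ZMod.card] :
          Fintype.card (Fin x ⊕ ZMod p) = x + p))).trans finProdFinEquiv)) (Equiv.refl _)).trans
      finSumFinEquiv)

theorem eb_none (K x s p : ℕ) [NeZero K] [NeZero p] (v : VT K x s p) (h : loc v = none) :
    K * (x + p) ≤ (eb K x s p v : ℕ) := by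
  rcases v with (⟨g', i⟩ | j) | ⟨g', y⟩
  · simp [loc] at h
  · simp [eb]
  · simp [loc] at h

theorem eb_some (K x s p : ℕ) [NeZero K] [NeZero p] (v : VT K x s p) (g : ZMod K)
    (h : loc v = some g) :
    (eb K x s p v : ℕ) / (x + p) = (Fintype.equivFinOfCardEq (ZMod.card K) g : Fin K) := by
  have hpos : 0 < x + p := by
    have := Nat.pos_of_ne_zero (NeZero.ne p)
    omega
  rcases v with (⟨g', i⟩ | j) | ⟨g', y⟩
  · simp only [loc, Option.some.injEq] at h
    subst h
    simp only [eb, Equiv.trans_apply, Equiv.sumAssoc_apply_inl_inl, Equiv.sumCongr_apply,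
      Sum.map_inl, Equiv.refl_apply, Equiv.sumAssoc_symm_apply_inl, finSumFinEquiv_apply_left,
      Fin.val_castAdd, Equiv.prodSumDistrib_symm_apply_left, Equiv.prodCongr_apply, Prod.map,
      finProdFinEquiv_apply_val]
    rw [Nat.add_mul_div_left _ _ hpos, Nat.div_eq_of_lt (Fin.is_lt _), zero_add]
  · simp [loc] at h
  · simp only [loc, Option.some.injEq] at h
    subst h
    simp only [eb, Equiv.trans_apply, Equiv.sumAssoc_apply_inr, Equiv.sumCongr_apply,
      Sum.map_inr, Equiv.sumComm_apply, Sum.swap_inr, Equiv.sumAssoc_symm_apply_inr_inl, Sum.map_inl,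
      finSumFinEquiv_apply_left,
      Fin.val_castAdd, Equiv.prodSumDistrib_symm_apply_right, Equiv.prodCongr_apply, Prod.map,
      finProdFinEquiv_apply_val]
    rw [Nat.add_mul_div_left _ _ hpos, Nat.div_eq_of_lt (Fin.is_lt _), zero_add]

theorem bot_b' {K x s p n : ℕ} [NeZero K] [NeZero p] {P : SimpleGraph (Fin n) → Prop}
    (hmono : ∀ G H : SimpleGraph (Fin n), G ≤ H → P G → P H)
    (hiso : ∀ (σ : Fin n ≃ Fin n) (G : SimpleGraph (Fin n)), P G → P (G.map σ.toEmbedding))
    (hn : K * (x + p) + s = n) (hs : s < K) (hP : ¬ P (cliquesCone n K)) :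
    ¬ PV P _ (TG K x s p (fun _ => True) ⊥) := by
  intro hPV
  have hm : n / K = x + p := by
    rw [← hn, mul_comm, add_comm, Nat.add_mul_div_right _ _ (by omega), Nat.div_eq_of_lt hs,
      zero_add]
  apply hP
  subst hn
  refine PV_le hmono hiso _ hPV (eb K x s p) _ ?_
  intro u v huv
  refine ⟨fun h => huv.ne ((eb K x s p).injective h), ?_⟩
  rw [hm]
  have key : ∀ w : VT K x s p, loc w = none ∨ ∃ g, loc w = some g := by
    intro w
    rcases loc w with _ | g
    · exact Or.inl rfl
    · exact Or.inr ⟨g, rfl⟩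
  rcases key u with hu | ⟨g, hu⟩
  · exact Or.inr (Or.inl (eb_none K x s p u hu))
  rcases key v with hv | ⟨g', hv⟩
  · exact Or.inr (Or.inr (eb_none K x s p v hv))
  left
  rw [eb_some K x s p u g hu, eb_some K x s p v g' hv]
  rcases TG_adj _ _ _ _ huv with h | ⟨g, h1, h2, h3⟩ | ⟨g, h1, h2, h3⟩ | ⟨a, b, h1, h2, h3⟩
  · rw [hu, hv, Option.some.injEq] at h
    rw [h]
  · rw [hv] at h3
    exact absurd h3 (by simp)
  · rw [hu] at h3
    exact absurd h3 (by simp)
  · exact absurd h3 (by simp)

theorem main' {K n q : ℕ} [hKp : Fact K.Prime] (hK : 3 ≤ K) {P : SimpleGraph (Fin n) → Prop}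
    (hP : GP n q P) (x s p w : ℕ) [hp : Fact p.Prime] (hn : K * (x + p) + s = n) (hs : s < K)
    (hw : (2 * K ^ 2 + 1) * w ≤ p) (hq : q < K.choose 2 * p ^ 2) (htop : P (pathPower n w))
    (hbot : (∀ j, 1 ≤ j → j < K → ¬ P (twoCliques n (j * (n / K)))) ∨ ¬ P (cliquesCone n K)) :
    False := by
  classical
  have hK0 : NeZero K := ⟨hKp.out.ne_zero⟩
  have hp0 : NeZero p := ⟨hp.out.ne_zero⟩
  have hm : n / K = x + p := by
    rw [← hn, mul_comm, add_comm, Nat.add_mul_div_right _ _ (by omega), Nat.div_eq_of_lt hs,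
      zero_add]
  have hcard : Fintype.card (RR K x s) + Fintype.card (ZMod K) * p = n := by
    rw [Fintype.card_sum, Fintype.card_prod, ZMod.card, Fintype.card_fin, Fintype.card_fin, ← hn]
    ring
  rcases hbot with hbot | hbot
  · rw [hm] at hbot
    have hrel := relX hP p hcard (BG K x s p (fun g => g = 0)) (BG_tr _)
      (fun a b y z h => BG_block _ a b y z h) (by rw [ZMod.card]; exact hq)
    refine signed_ne hK (fun I => PV P _ (BG K x s p (fun g => g = 0) ⊔
      CG (RR K x s) p (toG I))) ?_ ?_ ?_ hrel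
    · intro I
      have key : ∀ J : Finset (EV (ZMod K)), PV P _ (BG K x s p (fun g => g = 0) ⊔
          CG (RR K x s) p (toG J)) ↔ (toG J).Connected := by
        intro J
        constructor
        · intro h
          by_contra hcon
          exact bot_a' hP.mono hP.iso hn hbot (toG J) hcon h
        · intro h
          exact top hP.mono hn hw htop (fun g => g = 0) 0 rfl _ h
      rw [key, key]
      exact conn_rot I
    · exact bot_a' hP.mono hP.iso hn hbot _ (not_conn_empty hK)
    · intro I h0 hI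
      exact top hP.mono hn hw htop (fun g => g = 0) 0 rfl _ (conn_of_fixed I h0 hI)
  · have hrel := relX hP p hcard (BG K x s p (fun _ => True)) (BG_tr _)
      (fun a b y z h => BG_block _ a b y z h) (by rw [ZMod.card]; exact hq)
    refine signed_ne hK (fun I => PV P _ (BG K x s p (fun _ => True) ⊔
      CG (RR K x s) p (toG I))) ?_ ?_ ?_ hrel
    · intro I
      have h1 := TG_rot (K := K) (x := x) (s := s) (p := p) I
      unfold TG at h1
      rw [h1, PV_map]
    · rw [toG_empty]
      exact bot_b' hP.mono hP.iso hn hs hbot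
    · intro I h0 hI
      exact top hP.mono hn hw htop (fun _ => True) 0 trivial _ (conn_of_fixed I h0 hI)

end Pool.Agent.V5helper63.RS
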