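import Mathlib
import Pool.Agent.V5helper63.RS.E

set_option autoImplicit false
set_option linter.unusedSectionVars false

/-!
MP_257582_lc: clique trees.
-/

namespace Pool.Agent.V5helper63.RS

open Finset
open Pool.Agent.H98R2.Ev (EV toG toG_adj ep)
open Pool.Agent.H119R2.Kp

/-- clique trees: the vertex set is partitioned into `K` cliques with at least `⌊n / K⌋` vertices
each; after removing at most `δ n` vertices (those outside `C`) the graph on the set of the
cliques, in which two cliques are adjacent only if all pairs of their remaining vertices are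
adjacent, is (can be chosen) connected -/
def CliqueTree (K : ℕ) (δ : ℝ) {n : ℕ} (G : SimpleGraph (Fin n)) : Prop :=
  ∃ (c : Fin n → Fin K) (C : Set (Fin n)) (T : SimpleGraph (Fin K)), T.Connected ∧
    (∀ u v, u ≠ v → c u = c v → G.Adj u v) ∧
    (∀ i, n / K ≤ {u | c u = i}.ncard) ∧
    ((Cᶜ.ncard : ℕ) : ℝ) ≤ δ * n ∧
    (∀ u ∈ C, ∀ v ∈ C, T.Adj (c u) (c v) → G.Adj u v)

/-- distances at most `d` -/
def DiameterAtMost (d : ℕ) {n : ℕ} (G : SimpleGraph (Fin n)) : Prop :=
  ∀ u v : Fin n, ∃ W : G.Walk u v, W.length ≤ d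

theorem TG_cliqueTree {K x s p n : ℕ} [NeZero K] [NeZero p] (δ : ℝ) (hn : K * (x + p) + s = n)
    (hs : s < K) (hδ : ((K * x + s : ℕ) : ℝ) ≤ δ * n) (Z : ZMod K → Prop) (hZ : Z 0)
    (H : SimpleGraph (ZMod K)) (hH : H.Connected) (e : VT K x s p ≃ Fin n) :
    CliqueTree K δ ((TG K x s p Z H).map e.toEmbedding) := by
  classical
  have hm : n / K = x + p := by
    rw [← hn, mul_comm, add_comm, Nat.add_mul_div_right _ _ (by omega), Nat.div_eq_of_lt hs,
      zero_add]
  let θ : ZMod K ≃ Fin K := Fintype.equivFinOfCardEq (ZMod.card K)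
  have hadj : ∀ a b, (TG K x s p Z H).Adj a b →
      ((TG K x s p Z H).map e.toEmbedding).Adj (e a) (e b) := by
    intro a b hab
    rw [SimpleGraph.map_adj]
    exact ⟨a, b, hab, rfl, rfl⟩
  refine ⟨fun i => θ ((loc (e.symm i)).getD 0), {i | ∃ g y, e.symm i = Sum.inr (g, y)},
    H.map θ.toEmbedding, ?_, ?_, ?_, ?_, ?_⟩
  · let φ : H ≃g H.map θ.toEmbedding :=
      { toEquiv := θ
        map_rel_iff' := by
          intro a b
          exact SimpleGraph.map_adj_apply (f := θ.toEmbedding) }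
    exact φ.connected_iff.1 hH
  · intro u v huv h
    have h1 := θ.injective h
    have h2 : (TG K x s p Z H).Adj (e.symm u) (e.symm v) := by
      refine Or.inl ⟨fun h => huv (e.symm.injective h), ?_⟩
      rcases hu : loc (e.symm u) with _ | g <;> rcases hv : loc (e.symm v) with _ | g'
      · exact Or.inl rfl
      · rw [hu, hv] at h1
        simp only [Option.getD_none, Option.getD_some] at h1
        exact Or.inr (Or.inr ⟨0, hZ, by rw [h1], rfl⟩)
      · rw [hu, hv] at h1
        simp only [Option.getD_none, Option.getD_some] at h1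
        exact Or.inr (Or.inl ⟨0, hZ, by rw [h1], rfl⟩)
      · rw [hu, hv] at h1
        simp only [Option.getD_some] at h1
        exact Or.inl (by rw [h1])
    have h3 := hadj _ _ h2
    simpa using h3
  · intro i
    rw [hm, ← card_loc K x s p (θ.symm i)]
    have h1 : (((univ.filter (fun v : VT K x s p => loc v = some (θ.symm i))).map
        e.toEmbedding : Finset (Fin n)) : Set (Fin n)) ⊆
        {u | θ ((loc (e.symm u)).getD 0) = i} := by
      intro u hu
      rw [Finset.mem_coe, Finset.mem_map] at hu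
      obtain ⟨v, hv, rfl⟩ := hu
      rw [Finset.mem_filter] at hv
      have h2 : θ ((loc (e.symm (e.toEmbedding v))).getD 0) = i := by
        rw [Equiv.coe_toEmbedding, Equiv.symm_apply_apply, hv.2, Option.getD_some,
          Equiv.apply_symm_apply]
      exact h2
    have h2 := Set.ncard_le_ncard h1 (Set.toFinite _)
    rwa [Set.ncard_coe_finset, Finset.card_map] at h2
  · refine le_trans ?_ hδ
    have h1 : ({i : Fin n | ∃ g y, e.symm i = Sum.inr (g, y)} : Set (Fin n))ᶜ ⊆
        (((univ : Finset (RR K x s)).map ⟨fun a => e (Sum.inl a), fun a b h => by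
          simpa using h⟩ : Finset (Fin n)) : Set (Fin n)) := by
      intro i hi
      rw [Finset.mem_coe, Finset.mem_map]
      rcases hv : e.symm i with a | ⟨g, y⟩
      · refine ⟨a, Finset.mem_univ _, ?_⟩
        rw [Function.Embedding.coeFn_mk, ← hv, Equiv.apply_symm_apply]
      · exact absurd ⟨g, y, hv⟩ hi
    have h2 := Set.ncard_le_ncard h1 (Finset.finite_toSet _)
    rw [Set.ncard_coe_finset, Finset.card_map, Finset.card_univ, Fintype.card_sum,
      Fintype.card_prod, ZMod.card, Fintype.card_fin, Fintype.card_fin] at h2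
    exact_mod_cast h2
  · rintro u ⟨g, y, hu⟩ v ⟨g', y', hv⟩ h
    have h1 : (H.map θ.toEmbedding).Adj (θ g) (θ g') := by
      have e1 : θ ((loc (e.symm u)).getD 0) = θ g := by rw [hu]; rfl
      have e2 : θ ((loc (e.symm v)).getD 0) = θ g' := by rw [hv]; rfl
      simp only [e1, e2] at h
      exact h
    have h2 : H.Adj g g' := (SimpleGraph.map_adj_apply (f := θ.toEmbedding)).1 h1
    have h3 : (TG K x s p Z H).Adj (e.symm u) (e.symm v) := by
      rw [hu, hv]
      exact Or.inr h2
    have h4 := hadj _ _ h3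
    simpa using h4

theorem top2 {K x s p n : ℕ} [NeZero K] [NeZero p] {P : SimpleGraph (Fin n) → Prop} (δ : ℝ)
    (hn : K * (x + p) + s = n) (hs : s < K) (hδ : ((K * x + s : ℕ) : ℝ) ≤ δ * n)
    (hP : ∀ G, CliqueTree K δ G → P G) (Z : ZMod K → Prop) (hZ : Z 0)
    (H : SimpleGraph (ZMod K)) (hH : H.Connected) :
    PV P _ (TG K x s p Z H) := by
  have e : VT K x s p ≃ Fin n := Fintype.equivFinOfCardEq (by rw [card_VT, hn])
  exact ⟨e, hP _ (TG_cliqueTree δ hn hs hδ Z hZ H hH e)⟩

theorem main2 {K n q : ℕ} [hKp : Fact K.Prime] (hK : 3 ≤ K) {P : SimpleGraph (Fin n) → Prop}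
    (hP : GP n q P) (x s p : ℕ) (δ : ℝ) [hp : Fact p.Prime] (hn : K * (x + p) + s = n)
    (hs : s < K) (hδ : ((K * x + s : ℕ) : ℝ) ≤ δ * n) (hq : q < K.choose 2 * p ^ 2)
    (htop : ∀ G, CliqueTree K δ G → P G)
    (hbot : (∀ j, 1 ≤ j → j < K → ¬ P (twoCliques n (j * (n / K)))) ∨ ¬ P (cliquesCone n K)) :
    False := by
  classical
  have hK0 : NeZero K := ⟨hKp.out.ne_zero⟩
  have hp0 : NeZero p := ⟨hp.out.ne_zero⟩
  have hm : n / K = x + p := by
    rw [← hn, mul_comm, add_comm, Nat.add_mul_div_right _ _ (by omega), Nat.div_eq_of_lt hs,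
      zero_add]
  have hcard : Fintype.card (RR K x s) + Fintype.card (ZMod K) * p = n := by
    rw [Fintype.card_sum, Fintype.card_prod, ZMod.card, Fintype.card_fin, Fintype.card_fin, ← hn]
    ring
  rcases hbot with hbot | hbot
  · rw [hm] at hbot
    have hrel := relX hP p hcard (BG K x s p (fun g => g = 0)) (BG_tr _)
      (fun a b y z h => BG_block _ a b y z h) (by rw [ZMod.card]; exact hq)
    refine signed_ne hK (fun I => PV P _ (BG K x s p (fun g => g = 0) ⊔
      CG (RR K x s) p (toG I))) ?_ ?_ ?_ hrel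
    · intro I
      have key : ∀ J : Finset (EV (ZMod K)), PV P _ (BG K x s p (fun g => g = 0) ⊔
          CG (RR K x s) p (toG J)) ↔ (toG J).Connected := by
        intro J
        constructor
        · intro h
          by_contra hcon
          exact bot_a' hP.mono hP.iso hn hbot (toG J) hcon h
        · intro h
          exact top2 δ hn hs hδ htop (fun g => g = 0) rfl _ h
      rw [key, key]
      exact conn_rot I
    · exact bot_a' hP.mono hP.iso hn hbot _ (not_conn_empty hK)
    · intro I h0 hI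
      exact top2 δ hn hs hδ htop (fun g => g = 0) rfl _ (conn_of_fixed I h0 hI)
  · have hrel := relX hP p hcard (BG K x s p (fun _ => True)) (BG_tr _)
      (fun a b y z h => BG_block _ a b y z h) (by rw [ZMod.card]; exact hq)
    refine signed_ne hK (fun I => PV P _ (BG K x s p (fun _ => True) ⊔
      CG (RR K x s) p (toG I))) ?_ ?_ ?_ hrel
    · intro I
      have h1 := TG_rot (K := K) (x := x) (s := s) (p := p) I
      unfold TG at h1
      rw [h1, PV_map]
    · rw [toG_empty]
      exact bot_b' hP.mono hP.iso hn hs hbot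
    · intro I h0 hI
      exact top2 δ hn hs hδ htop (fun _ => True) trivial _ (conn_of_fixed I h0 hI)

/-- the size of the remaining part of a clique -/
theorem core_card {K n : ℕ} {δ : ℝ} (c : Fin n → Fin K) (C : Set (Fin n))
    (h1 : ∀ i, n / K ≤ {u | c u = i}.ncard) (h2 : ((Cᶜ.ncard : ℕ) : ℝ) ≤ δ * n) (i : Fin K) :
    ((n / K : ℕ) : ℝ) - δ * n ≤ (({u | c u = i} ∩ C : Set (Fin n)).ncard : ℝ) := by
  have h3 : ({u | c u = i} : Set (Fin n)).ncard ≤
      ({u | c u = i} ∩ C : Set (Fin n)).ncard + Cᶜ.ncard := by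
    refine le_trans (Set.ncard_le_ncard (t := ({u | c u = i} ∩ C) ∪ Cᶜ) ?_ (Set.toFinite _))
      (Set.ncard_union_le _ _)
    intro u hu
    by_cases hC : u ∈ C
    · exact Or.inl ⟨hu, hC⟩
    · exact Or.inr hC
  have h4 := (h1 i).trans h3
  have h5 : ((n / K : ℕ) : ℝ) ≤ (({u | c u = i} ∩ C : Set (Fin n)).ncard : ℝ) + (Cᶜ.ncard : ℝ) := by
    exact_mod_cast h4
  linarith

/-- clique trees contain powers of Hamiltonian paths -/
theorem cliqueTree_path {K n : ℕ} {δ : ℝ} (hK : 1 ≤ K) (hn : 6 * K ≤ n) (hδ : δ ≤ 1 / (3 * K))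
    (G : SimpleGraph (Fin n)) (hG : CliqueTree K δ G) :
    ∃ σ : Fin n ≃ Fin n, pathPower n (n / (6 * K ^ 3)) ≤ G.map σ.toEmbedding := by
  classical
  obtain ⟨c, C, T, hT, hc1, hc2, hC, hc3⟩ := hG
  have hKr : (1 : ℝ) ≤ K := by exact_mod_cast hK
  have hnr : 6 * (K : ℝ) ≤ n := by exact_mod_cast hn
  obtain ⟨l, h1, h2, h3⟩ := order_all G T hT (n / (6 * K ^ 3))
    (fun i => univ.filter (fun u => c u = i ∧ u ∈ C)) (fun i => univ.filter (fun u => c u = i))
    (by
      intro i u hu
      rw [Finset.mem_filter] at hu ⊢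
      exact ⟨hu.1, hu.2.1⟩)
    (by
      intro i u hu v hv huv
      rw [Finset.mem_filter] at hu hv
      exact hc1 u v huv (hu.2.trans hv.2.symm))
    (by
      intro i j hij u hu v hv huv
      rw [Finset.mem_filter] at hu hv
      refine hc3 u hu.2.2 v hv.2.2 ?_
      rw [hu.2.1, hv.2.1]
      exact hij)
    (by
      intro i
      have h4 := core_card c C hc2 hC i
      have h5 : (({u | c u = i} ∩ C : Set (Fin n)).ncard) =
          (univ.filter (fun u => c u = i ∧ u ∈ C)).card := by
        rw [← Set.ncard_coe_finset]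
        congr 1
        ext u
        simp
      rw [h5] at h4
      rw [Fintype.card_fin]
      obtain ⟨w, hw⟩ : ∃ w, w = n / (6 * K ^ 3) := ⟨_, rfl⟩
      rw [← hw]
      have h6 : (6 * K ^ 3) * w ≤ n := by rw [hw]; exact Nat.mul_div_le _ _
      have h6r : 6 * (K : ℝ) ^ 3 * w ≤ n := by exact_mod_cast h6
      have h7 : n < K * (n / K) + K := by
        have := Nat.div_add_mod n K
        have h8 := Nat.mod_lt n (show 0 < K by omega)
        omega
      have h7r : (n : ℝ) < K * ((n / K : ℕ) : ℝ) + K := by exact_mod_cast h7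
      have hδK : δ * (3 * K) ≤ 1 := by
        rwa [le_div_iff₀ (by linarith)] at hδ
      have hw0 : (0 : ℝ) ≤ w := Nat.cast_nonneg _
      have hn0 : (0 : ℝ) ≤ n := Nat.cast_nonneg _
      have h9 : (((2 * K ^ 2 + 1) * w : ℕ) : ℝ) ≤
          ((univ.filter (fun u => c u = i ∧ u ∈ C)).card : ℝ) := by
        refine le_trans ?_ h4
        push_cast
        have h10 : (2 * (K : ℝ) ^ 2 + 1) * w * (2 * K) ≤ n := by
          have h11 : (K : ℝ) ≤ K ^ 3 := by nlinarith [sq_nonneg ((K : ℝ) - 1)]
          nlinarith [mul_le_mul_of_nonneg_right h11 hw0]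
        have h12 : δ * n * (3 * K) ≤ n := by nlinarith
        have h13 : (2 * (K : ℝ) ^ 2 + 1) * w * (6 * K) ≤
            (((n / K : ℕ) : ℝ) - δ * n) * (6 * K) := by nlinarith
        exact le_of_mul_le_mul_right h13 (by linarith)
      exact_mod_cast h9)
    (by
      intro u
      exact ⟨c u, by rw [Finset.mem_filter]; exact ⟨Finset.mem_univ _, rfl⟩⟩)
  exact exists_equiv G _ (Fintype.card_fin n) l h1 h2 h3

/-- clique trees have diameter at most `K + 1` -/
theorem cliqueTree_diam {K n : ℕ} {δ : ℝ} (hδ : δ * n < ((n / K : ℕ) : ℝ))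
    (G : SimpleGraph (Fin n)) (hG : CliqueTree K δ G) : DiameterAtMost (K + 1) G := by
  classical
  obtain ⟨c, C, T, hT, hc1, hc2, hC, hc3⟩ := hG
  have hne : ∀ i, ∃ u, c u = i ∧ u ∈ C := by
    intro i
    have h4 := core_card c C hc2 hC i
    have h5 : 0 < (({u | c u = i} ∩ C : Set (Fin n)).ncard) := by
      have : (0 : ℝ) < (({u | c u = i} ∩ C : Set (Fin n)).ncard : ℝ) := by linarith
      exact_mod_cast this
    rw [Set.ncard_pos (Set.toFinite _)] at h5
    obtain ⟨u, hu, hu'⟩ := h5
    exact ⟨u, hu, hu'⟩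
  choose y hy hyC using hne
  have step : ∀ u v, c u = c v → ∃ W : G.Walk u v, W.length ≤ 1 := by
    intro u v h
    by_cases huv : u = v
    · subst huv
      exact ⟨SimpleGraph.Walk.nil, by simp⟩
    · exact ⟨(hc1 u v huv h).toWalk, by simp⟩
  have walk : ∀ (i j : Fin K) (W : T.Walk i j), ∃ W' : G.Walk (y i) (y j), W'.length ≤ W.length := by
    intro i j W
    induction W with
    | nil => exact ⟨SimpleGraph.Walk.nil, by simp⟩
    | cons h _ ih =>
      obtain ⟨W', hW'⟩ := ih
      refine ⟨SimpleGraph.Walk.cons (hc3 _ (hyC _) _ (hyC _) (by rw [hy, hy]; exact h)) W', ?_⟩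
      rw [SimpleGraph.Walk.length_cons, SimpleGraph.Walk.length_cons]
      omega
  intro u v
  obtain ⟨W0, hW0⟩ := (hT.preconnected (c u) (c v)).exists_isPath
  have hlen := hW0.length_lt
  rw [Fintype.card_fin] at hlen
  obtain ⟨W1, h1⟩ := step u (y (c u)) (hy _).symm
  obtain ⟨W2, h2⟩ := walk _ _ W0
  obtain ⟨W3, h3⟩ := step (y (c v)) v (hy _)
  refine ⟨(W1.append W2).append W3, ?_⟩
  rw [SimpleGraph.Walk.length_append, SimpleGraph.Walk.length_append]
  omega

theorem diam_mono {n d : ℕ} (G H : SimpleGraph (Fin n)) (hGH : G ≤ H) (hG : DiameterAtMost d G) :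
    DiameterAtMost d H := by
  intro u v
  obtain ⟨W, hW⟩ := hG u v
  exact ⟨W.mapLe hGH, by simpa using hW⟩

theorem diam_iso {n d : ℕ} (σ : Fin n ≃ Fin n) (G : SimpleGraph (Fin n))
    (hG : DiameterAtMost d G) : DiameterAtMost d (G.map σ.toEmbedding) := by
  intro u v
  obtain ⟨W, hW⟩ := hG (σ.symm u) (σ.symm v)
  let φ : G →g G.map σ.toEmbedding :=
    { toFun := σ
      map_rel' := by
        intro a b hab
        rw [SimpleGraph.map_adj]
        exact ⟨a, b, hab, rfl, rfl⟩ }
  have e1 : φ (σ.symm u) = u := σ.apply_symm_apply u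
  have e2 : φ (σ.symm v) = v := σ.apply_symm_apply v
  refine ⟨(W.map φ).copy e1 e2, ?_⟩
  rw [SimpleGraph.Walk.length_copy, SimpleGraph.Walk.length_map]
  exact hW

theorem diam_two {n a d : ℕ} (h1 : 1 ≤ a) (h2 : a < n) : ¬ DiameterAtMost d (twoCliques n a) := by
  intro h
  obtain ⟨W, -⟩ := h ⟨0, by omega⟩ ⟨a, h2⟩
  have key : ∀ (u v : Fin n) (_ : (twoCliques n a).Walk u v), ((u : ℕ) < a ↔ (v : ℕ) < a) := by
    intro u v W
    induction W with
    | nil => exact Iff.rfl
    | cons h _ ih => exact h.2.trans ih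
  have h3 := key _ _ W
  simp only [lt_irrefl, iff_false] at h3
  omega

end Pool.Agent.V5helper63.RS
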