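import Mathlib
import Pool.Agent.V5helper63.RS.G

set_option autoImplicit false
set_option linter.unusedSectionVars false

/-!
MP_257582_lc: blow-ups of graphs on `K` vertices by cliques.
-/

namespace Pool.Agent.V5helper63.RS

open Finset
open Pool.Agent.H98R2.Ev (EV toG toG_adj ep)
open Pool.Agent.H119R2.Kp

/-- `G` is a blow-up of the graph `I` on `K` vertices: the vertices of `G` are partitioned into `K`
cliques, all except the clique number `0` have `⌊n / K⌋` vertices; for all vertices outside of an
exceptional set of at most `δ n` vertices those in cliques which are adjacent in `I` are adjacent;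
there are no edges between cliques which are not adjacent in `I` -/
def BlowUp (K : ℕ) (δ : ℝ) {n : ℕ} (I : SimpleGraph (Fin K)) (G : SimpleGraph (Fin n)) : Prop :=
  ∃ (c : Fin n → Fin K) (C : Set (Fin n)),
    (∀ i : Fin K, (i : ℕ) ≠ 0 → {u | c u = i}.ncard = n / K) ∧
    ((Cᶜ.ncard : ℕ) : ℝ) ≤ δ * n ∧
    (∀ u v, u ≠ v → c u = c v → G.Adj u v) ∧
    (∀ u ∈ C, ∀ v ∈ C, I.Adj (c u) (c v) → G.Adj u v) ∧
    (∀ u v, G.Adj u v → c u = c v ∨ I.Adj (c u) (c v))

/-- numbering of `ZMod K` -/
def th (K : ℕ) [NeZero K] : ZMod K ≃ Fin K where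
  toFun a := ⟨a.val, ZMod.val_lt a⟩
  invFun i := ((i : ℕ) : ZMod K)
  left_inv a := ZMod.natCast_zmod_val a
  right_inv i := Fin.ext (ZMod.val_cast_of_lt i.2)

theorem th_zero (K : ℕ) [NeZero K] : ((th K 0 : Fin K) : ℕ) = 0 := ZMod.val_zero

theorem th_symm (K : ℕ) [NeZero K] (i : Fin K) (h : (i : ℕ) ≠ 0) : (th K).symm i ≠ 0 := by
  intro h1
  apply h
  have h2 : i = th K 0 := by rw [← h1, Equiv.apply_symm_apply]
  rw [h2, th_zero]

theorem TG_mono {K x s p : ℕ} (Z Z' : ZMod K → Prop) (h : ∀ g, Z g → Z' g)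
    (H H' : SimpleGraph (ZMod K)) (hH : H ≤ H') : TG K x s p Z H ≤ TG K x s p Z' H' := by
  intro u v huv
  rcases huv with huv | huv
  · left
    refine ⟨huv.1, ?_⟩
    rcases huv.2 with h1 | ⟨g, h1, h2⟩ | ⟨g, h1, h2⟩
    · exact Or.inl h1
    · exact Or.inr (Or.inl ⟨g, h g h1, h2⟩)
    · exact Or.inr (Or.inr ⟨g, h g h1, h2⟩)
  · right
    rcases u with u | ⟨a, u⟩
    · rcases v with v | v <;> exact huv
    rcases v with v | ⟨b, v⟩
    · exact huv
    exact hH huv

theorem TG_blowUp {K x s p n : ℕ} [NeZero K] [NeZero p] (δ : ℝ) (hn : K * (x + p) + s = n)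
    (hs : s < K) (hδ : ((K * x + s : ℕ) : ℝ) ≤ δ * n)
    (H : SimpleGraph (ZMod K)) (e : VT K x s p ≃ Fin n) :
    BlowUp K δ (H.map (th K).toEmbedding)
      ((TG K x s p (fun g => g = 0) H).map e.toEmbedding) := by
  classical
  have hm : n / K = x + p := by
    rw [← hn, mul_comm, add_comm, Nat.add_mul_div_right _ _ (by omega), Nat.div_eq_of_lt hs,
      zero_add]
  have hadj : ∀ a b, (TG K x s p (fun g => g = 0) H).Adj a b →
      ((TG K x s p (fun g => g = 0) H).map e.toEmbedding).Adj (e a) (e b) := by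
    intro a b hab
    rw [SimpleGraph.map_adj]
    exact ⟨a, b, hab, rfl, rfl⟩
  refine ⟨fun i => th K ((loc (e.symm i)).getD 0), {i | ∃ g y, e.symm i = Sum.inr (g, y)},
    ?_, ?_, ?_, ?_, ?_⟩
  · intro i hi
    rw [hm, ← card_loc K x s p ((th K).symm i)]
    have h1 : ({u | th K ((loc (e.symm u)).getD 0) = i} : Set (Fin n)) =
        (((univ.filter (fun v : VT K x s p => loc v = some ((th K).symm i))).map
        e.toEmbedding : Finset (Fin n)) : Set (Fin n)) := by
      ext u
      rw [Finset.mem_coe, Finset.mem_map]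
      constructor
      · intro hu
        have hu' : th K ((loc (e.symm u)).getD 0) = i := hu
        refine ⟨e.symm u, ?_, by simp⟩
        rw [Finset.mem_filter]
        refine ⟨Finset.mem_univ _, ?_⟩
        have h2 : (loc (e.symm u)).getD 0 = (th K).symm i := by
          rw [← hu', Equiv.symm_apply_apply]
        rcases h3 : loc (e.symm u) with _ | g
        · rw [h3, Option.getD_none] at h2
          exact absurd h2.symm (th_symm K i hi)
        · rw [h3, Option.getD_some] at h2
          rw [h2]
      · rintro ⟨v, hv, rfl⟩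
        rw [Finset.mem_filter] at hv
        have h2 : th K ((loc (e.symm (e.toEmbedding v))).getD 0) = i := by
          rw [Equiv.coe_toEmbedding, Equiv.symm_apply_apply, hv.2, Option.getD_some,
            Equiv.apply_symm_apply]
        exact h2
    rw [h1, Set.ncard_coe_finset, Finset.card_map]
  · refine le_trans ?_ hδ
    have h1 : ({i : Fin n | ∃ g y, e.symm i = Sum.inr (g, y)} : Set (Fin n))ᶜ ⊆
        (((univ : Finset (RR K x s)).map ⟨fun a => e (Sum.inl a), fun a b h => by
          simpa using h⟩ : Finset (Fin n)) : Set (Fin n)) := by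
      intro i hi
      rw [Finset.mem_coe, Finset.mem_map]
      rcases hv : e.symm i with a | ⟨g, y⟩
      · refine ⟨a, Finset.mem_univ _, ?_⟩
        rw [Function.Embedding.coeFn_mk, ← hv, Equiv.apply_symm_apply]
      · exact absurd ⟨g, y, hv⟩ hi
    have h2 := Set.ncard_le_ncard h1 (Finset.finite_toSet _)
    rw [Set.ncard_coe_finset, Finset.card_map, Finset.card_univ, Fintype.card_sum,
      Fintype.card_prod, ZMod.card, Fintype.card_fin, Fintype.card_fin] at h2
    exact_mod_cast h2
  · intro u v huv h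
    have h1 := (th K).injective h
    have h2 : (TG K x s p (fun g => g = 0) H).Adj (e.symm u) (e.symm v) := by
      refine Or.inl ⟨fun h => huv (e.symm.injective h), ?_⟩
      rcases hu : loc (e.symm u) with _ | g <;> rcases hv : loc (e.symm v) with _ | g'
      · exact Or.inl rfl
      · rw [hu, hv] at h1
        simp only [Option.getD_none, Option.getD_some] at h1
        exact Or.inr (Or.inr ⟨0, rfl, by rw [h1], rfl⟩)
      · rw [hu, hv] at h1
        simp only [Option.getD_none, Option.getD_some] at h1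
        exact Or.inr (Or.inl ⟨0, rfl, by rw [h1], rfl⟩)
      · rw [hu, hv] at h1
        simp only [Option.getD_some] at h1
        exact Or.inl (by rw [h1])
    have h3 := hadj _ _ h2
    simpa using h3
  · rintro u ⟨g, y, hu⟩ v ⟨g', y', hv⟩ h
    have h1 : (H.map (th K).toEmbedding).Adj (th K g) (th K g') := by
      have e1 : th K ((loc (e.symm u)).getD 0) = th K g := by rw [hu]; rfl
      have e2 : th K ((loc (e.symm v)).getD 0) = th K g' := by rw [hv]; rfl
      simp only [e1, e2] at h
      exact h
    have h2 : H.Adj g g' := (SimpleGraph.map_adj_apply (f := (th K).toEmbedding)).1 h1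
    have h3 : (TG K x s p (fun g => g = 0) H).Adj (e.symm u) (e.symm v) := by
      rw [hu, hv]
      exact Or.inr h2
    have h4 := hadj _ _ h3
    simpa using h4
  · intro u v huv
    rw [SimpleGraph.map_adj] at huv
    obtain ⟨a, b, hab, rfl, rfl⟩ := huv
    simp only [Equiv.coe_toEmbedding, Equiv.symm_apply_apply]
    rcases TG_adj _ _ _ _ hab with h | ⟨g, h1, h2, h3⟩ | ⟨g, h1, h2, h3⟩ | ⟨a', b', h1, h2, h3⟩
    · exact Or.inl (by rw [h])
    · exact Or.inl (by rw [h2, h3, Option.getD_none, Option.getD_some, h1])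
    · exact Or.inl (by rw [h2, h3, Option.getD_none, Option.getD_some, h1])
    · right
      rw [h1, h2, Option.getD_some, Option.getD_some]
      exact (SimpleGraph.map_adj_apply (f := (th K).toEmbedding)).2 h3

theorem fixed_cycle {K : ℕ} [hK : Fact K.Prime] (I : Finset (EV (ZMod K))) (h0 : I ≠ ∅)
    (hI : rot K I = I) : ∃ ω : Fin K ≃ ZMod K,
      (SimpleGraph.cycleGraph K).map ω.toEmbedding ≤ toG I := by
  have hK0 : NeZero K := ⟨hK.out.ne_zero⟩
  obtain ⟨⟨e, he⟩, heI⟩ := Finset.nonempty_iff_ne_empty.2 h0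
  induction e using Sym2.ind with
  | _ a b =>
    have hab : (toG I).Adj a b := by
      rw [toG_adj]
      exact ⟨he, heI⟩
    have hstep : ∀ j : ℕ, (toG I).Adj (a + j) (b + j) := by
      intro j
      induction j with
      | zero => simpa using hab
      | succ j ih =>
        have h1 := (toG_rot I _ _).2 ih
        rw [hI] at h1
        push_cast
        rw [← add_assoc, ← add_assoc]
        exact h1
    have hstep' : ∀ c : ZMod K, (toG I).Adj c (c + (b - a)) := by
      intro c
      have h1 := hstep (c - a).val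
      rw [ZMod.natCast_zmod_val] at h1
      have e1 : a + (c - a) = c := by ring
      have e2 : b + (c - a) = c + (b - a) := by ring
      rw [e1, e2] at h1
      exact h1
    have hd : b - a ≠ 0 := sub_ne_zero.2 hab.ne.symm
    refine ⟨(th K).symm.trans (Equiv.mulLeft₀ (b - a) hd), ?_⟩
    have key : ∀ i j : Fin K, (i - j).val = 1 →
        (th K).symm i = (th K).symm j + 1 := by
      intro i j h
      have h1 : (((i - j).val : ℕ) : ZMod K) = 1 := by rw [h]; simp
      rw [Fin.sub_def] at h1
      simp only at h1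
      rw [ZMod.natCast_mod, Nat.cast_add, Nat.cast_sub j.2.le, ZMod.natCast_self] at h1
      change ((i : ℕ) : ZMod K) = ((j : ℕ) : ZMod K) + 1
      rw [← h1]
      ring
    intro u v huv
    rw [SimpleGraph.map_adj] at huv
    obtain ⟨i, j, hij, rfl, rfl⟩ := huv
    rw [SimpleGraph.cycleGraph_adj'] at hij
    simp only [Equiv.coe_toEmbedding, Equiv.trans_apply, Equiv.mulLeft₀_apply]
    rcases hij with h | h
    · rw [key i j h, mul_add, mul_one]
      exact (hstep' _).symm
    · rw [key j i h, mul_add, mul_one]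
      exact hstep' _

theorem main3 {K n q : ℕ} [hKp : Fact K.Prime] (hK : 3 ≤ K) {P : SimpleGraph (Fin n) → Prop}
    (hP : GP n q P) (x s p : ℕ) (δ : ℝ) [hp : Fact p.Prime] (hn : K * (x + p) + s = n)
    (hs : s < K) (hδ : ((K * x + s : ℕ) : ℝ) ≤ δ * n) (hq : q < K.choose 2 * p ^ 2)
    (h : (∃ Q : SimpleGraph (Fin K) → Prop, (∀ I J, I ≤ J → Q I → Q J) ∧
        (∀ (σ : Fin K ≃ Fin K) (I : SimpleGraph (Fin K)), Q I → Q (I.map σ.toEmbedding)) ∧
        ¬ Q ⊥ ∧ Q (SimpleGraph.cycleGraph K) ∧ ∀ I G, BlowUp K δ I G → (P G ↔ Q I)) ∨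
      ((∀ I, Nonempty (SimpleGraph.cycleGraph K ≃g I) → ∀ G, BlowUp K δ I G → P G) ∧
        ¬ P (cliquesCone n K))) :
    False := by
  classical
  have hK0 : NeZero K := ⟨hKp.out.ne_zero⟩
  have hp0 : NeZero p := ⟨hp.out.ne_zero⟩
  have hcard : Fintype.card (RR K x s) + Fintype.card (ZMod K) * p = n := by
    rw [Fintype.card_sum, Fintype.card_prod, ZMod.card, Fintype.card_fin, Fintype.card_fin, ← hn]
    ring
  have e : VT K x s p ≃ Fin n := Fintype.equivFinOfCardEq (by rw [card_VT, hn])
  rcases h with ⟨Q, hQm, hQi, hQ0, hQc, hQP⟩ | ⟨hPc, hPn⟩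
  · have hrel := relX hP p hcard (BG K x s p (fun g => g = 0)) (BG_tr _)
      (fun a b y z h => BG_block _ a b y z h) (by rw [ZMod.card]; exact hq)
    have hQi' : ∀ (σ : Fin K ≃ Fin K) (I : SimpleGraph (Fin K)),
        Q (I.map σ.toEmbedding) ↔ Q I := by
      intro σ I
      constructor
      · intro h
        have h1 := hQi σ.symm _ h
        rw [SimpleGraph.map_map] at h1
        have h2 : (⇑σ.symm.toEmbedding ∘ ⇑σ.toEmbedding) = id := by
          funext v
          simp
        rw [h2, SimpleGraph.map_id] at h1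
        exact h1
      · exact hQi σ I
    have key : ∀ J : Finset (EV (ZMod K)), PV P _ (BG K x s p (fun g => g = 0) ⊔
        CG (RR K x s) p (toG J)) ↔ Q ((toG J).map (th K).toEmbedding) := by
      intro J
      have hB := fun e' => TG_blowUp (x := x) (s := s) (p := p) (n := n) δ hn hs hδ (toG J) e'
      constructor
      · rintro ⟨e', he'⟩
        exact (hQP _ _ (hB e')).1 he'
      · intro h
        exact ⟨e, (hQP _ _ (hB e)).2 h⟩
    refine signed_ne hK (fun I => PV P _ (BG K x s p (fun g => g = 0) ⊔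
      CG (RR K x s) p (toG I))) ?_ ?_ ?_ hrel
    · intro I
      rw [key, key]
      have h1 : toG (rot K I) = (toG I).map (Equiv.addRight (1 : ZMod K)).toEmbedding := by
        ext u v
        rw [SimpleGraph.map_adj]
        constructor
        · intro h
          refine ⟨u - 1, v - 1, ?_, by simp, by simp⟩
          rw [← toG_rot]
          simpa using h
        · rintro ⟨a, b, h, rfl, rfl⟩
          exact (toG_rot I a b).2 h
      have h2 : (toG (rot K I)).map (th K).toEmbedding =
          ((toG I).map (th K).toEmbedding).map (((th K).symm.trans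
            (Equiv.addRight (1 : ZMod K))).trans (th K)).toEmbedding := by
        rw [h1, SimpleGraph.map_map, SimpleGraph.map_map]
        congr 1
        funext v
        simp
      rw [h2]
      exact hQi' _ _
    · rw [key, toG_empty]
      have h1 : (⊥ : SimpleGraph (ZMod K)).map (th K).toEmbedding = ⊥ := by
        ext u v
        rw [SimpleGraph.map_adj]
        simp
      rw [h1]
      exact hQ0
    · intro I h0 hI
      rw [key]
      obtain ⟨ω, hω⟩ := fixed_cycle I h0 hI
      refine hQm _ _ (SimpleGraph.map_monotone (th K).toEmbedding hω) ?_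
      rw [SimpleGraph.map_map]
      exact hQi (ω.trans (th K)) _ hQc
  · have hrel := relX hP p hcard (BG K x s p (fun _ => True)) (BG_tr _)
      (fun a b y z h => BG_block _ a b y z h) (by rw [ZMod.card]; exact hq)
    refine signed_ne hK (fun I => PV P _ (BG K x s p (fun _ => True) ⊔
      CG (RR K x s) p (toG I))) ?_ ?_ ?_ hrel
    · intro I
      have h1 := TG_rot (K := K) (x := x) (s := s) (p := p) I
      unfold TG at h1
      rw [h1, PV_map]
    · rw [toG_empty]
      exact bot_b' hP.mono hP.iso hn hs hPn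
    · intro I h0 hI
      obtain ⟨ω, hω⟩ := fixed_cycle I h0 hI
      refine ⟨e, ?_⟩
      have hB := TG_blowUp (x := x) (s := s) (p := p) (n := n) δ hn hs hδ
        ((SimpleGraph.cycleGraph K).map ω.toEmbedding) e
      refine hP.mono _ _ ?_ (hPc _ ⟨?_⟩ _ hB)
      · exact SimpleGraph.map_monotone _ (TG_mono _ _ (fun _ _ => trivial) _ _ hω)
      · exact (SimpleGraph.Iso.map ω (SimpleGraph.cycleGraph K)).trans
          (SimpleGraph.Iso.map (th K) _)

end Pool.Agent.V5helper63.RS
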