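import Mathlib
import Pool.Agent.V5helper63.RS.E

set_option autoImplicit false
set_option linter.unusedSectionVars false

/-!
MP_257582_lc: graphs which leave the property if the edges between two classes of twins are deleted.
-/

namespace Pool.Agent.V5helper63.RS

open Finset
open Pool.Agent.H98R2.Ev (EV toG toG_adj)
open Pool.Agent.H119R2.Kp

theorem tw2 {V C : Type} {c : V → Option C} {G : SimpleGraph V}
    (htw : ∀ u v w, u ≠ w → v ≠ w → c u = c v → c u ≠ none → (G.Adj u w ↔ G.Adj v w))
    (u v u' v' : V) (huv' : u' ≠ v')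
    (hu : u = u' ∨ (c u = c u' ∧ c u ≠ none)) (hv : v = v' ∨ (c v = c v' ∧ c v ≠ none))
    (h : G.Adj u v) : G.Adj u' v' := by
  have A : ∀ a b a', a' ≠ b → (a = a' ∨ (c a = c a' ∧ c a ≠ none)) → G.Adj a b → G.Adj a' b := by
    intro a b a' h1 h2 h3
    rcases h2 with rfl | ⟨h4, h5⟩
    · exact h3
    · exact (htw a a' b h3.ne h1 h4 h5).1 h3
  by_cases h1 : u' = v
  · by_cases h2 : v' = u
    · rw [h1, h2]
      exact h.symm
    · exact A u v' u' huv' hu (A v u v' h2 hv h.symm).symm
  · exact (A v u' v' huv'.symm hv (A u v u' h1 hu h).symm).symm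

theorem main_crit {K n q p : ℕ} {P : SimpleGraph (Fin n) → Prop} (hP : GP n q P)
    [hp : Fact p.Prime] (c : Fin n → Option (Fin K)) (G : SimpleGraph (Fin n))
    (hc : ∀ i, {u | c u = some i}.ncard = p)
    (htw : ∀ u v w, u ≠ w → v ≠ w → c u = c v → c u ≠ none → (G.Adj u w ↔ G.Adj v w))
    (hG : P G)
    (hij : ∀ i j, i ≠ j → ∀ H : SimpleGraph (Fin n), H ≤ G →
      (∀ u v, c u = some i → c v = some j → ¬ H.Adj u v) → ¬ P H)
    (hq : q < K.choose 2 * p ^ 2) : False := by
  classical
  have hp0 : NeZero p := ⟨hp.out.ne_zero⟩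
  have hε : ∀ i : Fin K, Nonempty (ZMod p ≃ {u : Fin n // c u = some i}) := by
    intro i
    refine ⟨Fintype.equivOfCardEq ?_⟩
    rw [ZMod.card, ← Nat.card_eq_fintype_card]
    exact (hc i).symm
  let ε : ∀ i : Fin K, ZMod p ≃ {u : Fin n // c u = some i} := fun i => (hε i).some
  let R : Type := {u : Fin n // c u = none}
  let cf : W (Fin K) R p → Option (Fin K) := fun w => Sum.elim (fun _ => none) (fun x => some x.1) w
  let f : W (Fin K) R p → Fin n := fun w => Sum.elim (fun r : R => r.1) (fun x => (ε x.1 x.2).1) w
  have hcf : ∀ w, c (f w) = cf w := by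
    rintro (r | ⟨i, y⟩)
    · exact r.2
    · exact (ε i y).2
  have hinj : Function.Injective f := by
    intro a b hab
    have h1 : cf a = cf b := by rw [← hcf, ← hcf, hab]
    rcases a with r | ⟨i, y⟩ <;> rcases b with r' | ⟨j, z⟩
    · exact congrArg Sum.inl (Subtype.ext hab)
    · simp [cf] at h1
    · simp [cf] at h1
    · have h2 : i = j := by simpa [cf] using h1
      subst h2
      have h3 : ε i y = ε i z := Subtype.ext hab
      rw [(ε i).injective h3]
  have hsurj : Function.Surjective f := by
    intro u
    rcases h : c u with _ | i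
    · exact ⟨Sum.inl ⟨u, h⟩, rfl⟩
    · refine ⟨Sum.inr (i, (ε i).symm ⟨u, h⟩), ?_⟩
      change (ε i ((ε i).symm ⟨u, h⟩)).1 = u
      rw [Equiv.apply_symm_apply]
  let e : W (Fin K) R p ≃ Fin n := Equiv.ofBijective f ⟨hinj, hsurj⟩
  have hce : ∀ w, c (e w) = cf w := hcf
  have hn : Fintype.card R + Fintype.card (Fin K) * p = n := by
    have h1 := Fintype.card_congr e
    rw [Fintype.card_sum, Fintype.card_prod, ZMod.card, Fintype.card_fin, Fintype.card_fin] at h1
    rw [Fintype.card_fin]
    exact h1
  let B : SimpleGraph (W (Fin K) R p) :=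
    { Adj := fun a b => G.Adj (e a) (e b) ∧ (cf a = cf b ∨ cf a = none ∨ cf b = none)
      symm := ⟨fun a b h => ⟨h.1.symm, by
        rcases h.2 with h1 | h1 | h1
        · exact Or.inl h1.symm
        · exact Or.inr (Or.inr h1)
        · exact Or.inr (Or.inl h1)⟩⟩
      loopless := ⟨fun a h => h.1.ne rfl⟩ }
  have htr : ∀ (b : Fin K) (a : W (Fin K) R p), cf (tr b 1 a) = cf a ∧
      (e a = e (tr b 1 a) ∨ (c (e a) = c (e (tr b 1 a)) ∧ c (e a) ≠ none)) := by
    rintro b (r | ⟨i, y⟩)
    · exact ⟨rfl, Or.inl rfl⟩
    · refine ⟨rfl, Or.inr ⟨?_, ?_⟩⟩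
      · rw [hce, hce]
        rfl
      · rw [hce]
        simp [cf]
  have hfull : ∀ i j, i ≠ j → ∀ u v, c u = some i → c v = some j → G.Adj u v := by
    intro i j hne u v hu hv
    by_contra hcon
    refine hij i j hne G le_rfl ?_ hG
    intro u' v' hu' hv' h
    refine hcon (tw2 htw u' v' u v ?_ (Or.inr ⟨by rw [hu', hu], by rw [hu']; simp⟩)
      (Or.inr ⟨by rw [hv', hv], by rw [hv']; simp⟩) h)
    rintro rfl
    rw [hu] at hv
    exact hne (Option.some.inj hv)
  have hrel := relX hP p hn B (by
      intro b u v h
      have hu := htr b u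
      have hv := htr b v
      refine ⟨tw2 htw _ _ _ _ ?_ hu.2 hv.2 h.1, ?_⟩
      · intro h1
        exact h.1.ne (congrArg e ((tr b 1).injective (e.injective h1)))
      · rw [hu.1, hv.1]
        exact h.2)
    (by
      intro a b x y hab h
      rcases h.2 with h1 | h1 | h1
      · exact hab (Option.some.inj h1)
      · simp [cf] at h1
      · simp [cf] at h1)
    (by rw [Fintype.card_fin]; exact hq)
  have h1 : ∀ I : Finset (EV (Fin K)), PV P _ (B ⊔ CG R p (toG I)) ↔ I = univ := by
    intro I
    rw [RelAux.PV_iff hP e]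
    constructor
    · intro h
      by_contra hI
      obtain ⟨x, hx⟩ : ∃ x, x ∉ I := by
        by_contra hcon
        push Not at hcon
        exact hI (Finset.eq_univ_iff_forall.2 hcon)
      obtain ⟨x, hx'⟩ := x
      induction x using Sym2.ind with
      | _ i j =>
      have hne : i ≠ j := by
        rintro rfl
        exact hx' rfl
      refine hij i j hne _ ?_ ?_ h
      · intro u v huv
        rw [SimpleGraph.map_adj] at huv
        obtain ⟨a, b, hab, rfl, rfl⟩ := huv
        rcases hab with hab | hab
        · exact hab.1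
        · rcases a with a | ⟨i', y⟩
          · exact absurd hab (CG_l _ _ _)
          · rcases b with b | ⟨j', z⟩
            · exact absurd hab (CG_r _ _ _)
            · exact hfull i' j' ((CG_adj _ _ _ _ _).1 hab).ne _ _ (hce _) (hce _)
      · intro u v hu hv huv
        rw [SimpleGraph.map_adj] at huv
        obtain ⟨a, b, hab, rfl, rfl⟩ := huv
        rw [Equiv.coe_toEmbedding, hce] at hu hv
        rcases hab with hab | hab
        · rcases hab.2 with h2 | h2 | h2
          · rw [hu, hv] at h2
            exact hne (Option.some.inj h2)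
          · rw [hu] at h2
            simp at h2
          · rw [hv] at h2
            simp at h2
        · rcases a with a | ⟨i', y⟩
          · exact absurd hab (CG_l _ _ _)
          · rcases b with b | ⟨j', z⟩
            · exact absurd hab (CG_r _ _ _)
            · have h2 : i' = i := Option.some.inj hu
              have h3 : j' = j := Option.some.inj hv
              subst h2 h3
              rw [CG_adj, toG_adj] at hab
              obtain ⟨h4, h5⟩ := hab
              exact hx h5
    · rintro rfl
      refine hP.mono _ _ ?_ hG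
      intro u v huv
      rw [SimpleGraph.map_adj]
      refine ⟨e.symm u, e.symm v, ?_, by simp, by simp⟩
      have hcu : cf (e.symm u) = c u := by rw [← hce, Equiv.apply_symm_apply]
      have hcv : cf (e.symm v) = c v := by rw [← hce, Equiv.apply_symm_apply]
      by_cases h2 : cf (e.symm u) = cf (e.symm v) ∨ cf (e.symm u) = none ∨ cf (e.symm v) = none
      · left
        refine ⟨?_, h2⟩
        rw [Equiv.apply_symm_apply, Equiv.apply_symm_apply]
        exact huv
      · right
        rcases ha : e.symm u with a | ⟨i, y⟩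
        · exact absurd (Or.inr (Or.inl (by rw [ha]; rfl))) h2
        · rcases hb : e.symm v with b | ⟨j, z⟩
          · exact absurd (Or.inr (Or.inr (by rw [hb]; rfl))) h2
          · rw [CG_adj, toG_adj]
            refine ⟨?_, Finset.mem_univ _⟩
            intro h3
            rw [Sym2.mk_isDiag_iff] at h3
            apply h2
            left
            rw [ha, hb, h3]
            rfl
  rw [Finset.sum_eq_single univ] at hrel
  · rw [if_pos ((h1 _).2 rfl), mul_one] at hrel
    exact absurd hrel (pow_ne_zero _ (by norm_num))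
  · intro I _ hI
    rw [if_neg (fun h => hI ((h1 I).1 h)), mul_zero]
  · intro h
    exact absurd (Finset.mem_univ _) h

end Pool.Agent.V5helper63.RS
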