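import Mathlib
import Pool.Agent.V5helper63.RS.G
import Pool.Agent.V5helper63.RS.M

set_option autoImplicit false
set_option linter.unusedSectionVars false

/-!
MP_257582_lc: diameter at most `d` for small `d`: `K` cliques of size `p`, which are connected with
a central clique by paths of length `d`.
-/

namespace Pool.Agent.V5helper63.RS

open Finset
open Pool.Agent.H98R2.Ev (EV toG toG_adj)
open Pool.Agent.H119R2.Kp

/-- level of a vertex -/
def lev (K p d u : ℕ) : ℕ := min d (u / K + 1 - p)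

/-- blocks (level `0`), legs (levels `1` to `d - 1`), center (level `d`) -/
def spider (n K p d : ℕ) : SimpleGraph (Fin n) where
  Adj u v := u ≠ v ∧ ((lev K p d u = 0 ∧ lev K p d v = 0) ∨ (lev K p d u = d ∧ lev K p d v = d) ∨
    ((lev K p d u = lev K p d v + 1 ∨ lev K p d v = lev K p d u + 1) ∧
      (lev K p d u = d ∨ lev K p d v = d ∨ (u : ℕ) % K = (v : ℕ) % K)))
  symm := ⟨by
    rintro u v ⟨h, h1⟩
    refine ⟨h.symm, ?_⟩
    rcases h1 with h1 | h1 | ⟨h1, h2⟩
    · exact Or.inl ⟨h1.2, h1.1⟩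
    · exact Or.inr (Or.inl ⟨h1.2, h1.1⟩)
    · refine Or.inr (Or.inr ⟨h1.symm, ?_⟩)
      rcases h2 with h2 | h2 | h2
      · exact Or.inr (Or.inl h2)
      · exact Or.inl h2
      · exact Or.inr (Or.inr h2.symm)⟩
  loopless := ⟨fun u h => h.1 rfl⟩

/-- the block of a vertex -/
def blk (n K p d : ℕ) (hK : 0 < K) (u : Fin n) : Option (Fin K) :=
  if lev K p d u = 0 then some ⟨(u : ℕ) % K, Nat.mod_lt _ hK⟩ else none

theorem blk_some {n K p d : ℕ} {hK : 0 < K} {u : Fin n} {i : Fin K} :
    blk n K p d hK u = some i ↔ lev K p d u = 0 ∧ (u : ℕ) % K = i := by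
  unfold blk
  split_ifs with h
  · simp [h, Fin.ext_iff]
  · simp [h]

theorem blk_card {n K p d : ℕ} (hK : 0 < K) (hd : 1 ≤ d) (hn : K * p ≤ n) (i : Fin K) :
    {u | blk n K p d hK u = some i}.ncard = p := by
  have hlt : ∀ j : Fin p, K * (j : ℕ) + i < n := by
    intro j
    have h1 : K * ((j : ℕ) + 1) ≤ K * p := Nat.mul_le_mul_left K j.2
    have h2 := i.2
    rw [Nat.mul_add, Nat.mul_one] at h1
    omega
  have h : {u | blk n K p d hK u = some i} =
      Set.range (fun j : Fin p => (⟨K * (j : ℕ) + i, hlt j⟩ : Fin n)) := by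
    ext u
    rw [Set.mem_ofPred_eq, blk_some, Set.mem_range]
    constructor
    · rintro ⟨h1, h2⟩
      unfold lev at h1
      have h3 : (u : ℕ) / K < p := by omega
      refine ⟨⟨(u : ℕ) / K, h3⟩, ?_⟩
      apply Fin.ext
      change K * ((u : ℕ) / K) + i = u
      rw [← h2]
      exact Nat.div_add_mod _ _
    · rintro ⟨j, rfl⟩
      have h1 : (K * (j : ℕ) + i) / K = j := by
        rw [Nat.mul_add_div hK, Nat.div_eq_of_lt i.2, Nat.add_zero]
      have h2 : (K * (j : ℕ) + i) % K = i := by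
        rw [Nat.mul_add_mod, Nat.mod_eq_of_lt i.2]
      refine ⟨?_, h2⟩
      unfold lev
      change min d ((K * (j : ℕ) + i) / K + 1 - p) = 0
      rw [h1]
      have := j.2
      omega
  rw [h, ← Set.image_univ, Set.ncard_image_of_injective _ ?_, Set.ncard_univ, Nat.card_fin]
  intro a b hab
  have h1 := congrArg Fin.val hab
  change K * (a : ℕ) + i = K * (b : ℕ) + i at h1
  apply Fin.ext
  have h2 : K * (a : ℕ) = K * (b : ℕ) := by omega
  exact Nat.eq_of_mul_eq_mul_left hK h2

theorem blk_twin {n K p d : ℕ} (hK : 0 < K) (u v w : Fin n) (hu : u ≠ w)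
    (hv : v ≠ w) (h : blk n K p d hK u = blk n K p d hK v) (h0 : blk n K p d hK u ≠ none) :
    (spider n K p d).Adj u w ↔ (spider n K p d).Adj v w := by
  obtain ⟨i, hi⟩ := Option.ne_none_iff_exists'.1 h0
  rw [hi] at h
  have h1 := blk_some.1 hi
  have h2 := blk_some.1 h.symm
  simp only [spider, hu, hv, ne_eq, not_false_eq_true, true_and, h1.1, h2.1, h1.2, h2.2]

/-- existence of vertices -/
theorem ex_lev {n K p d : ℕ} (hp : 1 ≤ p) (hn : K * (p + d) ≤ n) (i a : ℕ) (hi : i < K)
    (ha : a ≤ d) : ∃ u : Fin n, lev K p d u = a ∧ (u : ℕ) % K = i := by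
  have hlt : K * (p - 1 + a) + i < n := by
    have h1 : K * (p - 1 + a + 1) ≤ K * (p + d) := Nat.mul_le_mul_left K (by omega)
    rw [Nat.mul_add, Nat.mul_one] at h1
    omega
  refine ⟨⟨K * (p - 1 + a) + i, hlt⟩, ?_, ?_⟩
  · unfold lev
    change min d ((K * (p - 1 + a) + i) / K + 1 - p) = a
    rw [Nat.mul_add_div (by omega), Nat.div_eq_of_lt hi, Nat.add_zero]
    omega
  · change (K * (p - 1 + a) + i) % K = i
    rw [Nat.mul_add_mod, Nat.mod_eq_of_lt hi]

theorem vert {n K p d : ℕ} (hK : 0 < K) (hp : 1 ≤ p) (hn : K * (p + d) ≤ n) :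
    ∀ (m a : ℕ) (u v : Fin n), lev K p d u = a → lev K p d v = a + m → 1 ≤ m →
      (a + m = d ∨ (u : ℕ) % K = (v : ℕ) % K) →
      ∃ W : (spider n K p d).Walk u v, W.length ≤ m := by
  intro m
  induction m with
  | zero => intro a u v _ _ h; omega
  | succ m ih =>
    intro a u v hu hv _ h
    rcases Nat.eq_zero_or_pos m with hm | hm
    · subst hm
      have hadj : (spider n K p d).Adj u v := by
        refine ⟨?_, Or.inr (Or.inr ⟨Or.inr (by rw [hu, hv]), ?_⟩)⟩
        · rintro rfl
          omega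
        · rcases h with h | h
          · exact Or.inr (Or.inl (by rw [hv, h]))
          · exact Or.inr (Or.inr h)
      exact ⟨SimpleGraph.Walk.cons hadj SimpleGraph.Walk.nil, by simp⟩
    · have hvd : lev K p d v ≤ d := by unfold lev; omega
      obtain ⟨w, hw1, hw2⟩ := ex_lev hp hn ((u : ℕ) % K) (a + 1) (Nat.mod_lt _ hK) (by omega)
      obtain ⟨W, hW⟩ := ih (a + 1) w v hw1 (by omega) hm (by
        rcases h with h | h
        · left; omega
        · right; rw [hw2, h])
      have hadj : (spider n K p d).Adj u w := by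
        refine ⟨?_, Or.inr (Or.inr ⟨Or.inr (by rw [hu, hw1]), Or.inr (Or.inr hw2.symm)⟩)⟩
        rintro rfl
        omega
      exact ⟨SimpleGraph.Walk.cons hadj W, by simpa using hW⟩

theorem down {n K p d : ℕ} (hK : 0 < K) (hp : 1 ≤ p) (hn : K * (p + d) ≤ n) (u : Fin n) :
    ∃ w : Fin n, lev K p d w = 0 ∧ ∃ W : (spider n K p d).Walk w u, W.length ≤ lev K p d u := by
  rcases Nat.eq_zero_or_pos (lev K p d u) with h | h
  · exact ⟨u, h, SimpleGraph.Walk.nil, by simp⟩
  · obtain ⟨w, hw1, hw2⟩ := ex_lev hp hn ((u : ℕ) % K) 0 (Nat.mod_lt _ hK) (Nat.zero_le d)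
    obtain ⟨W, hW⟩ := vert hK hp hn (lev K p d u) 0 w u hw1 (by omega) h (Or.inr hw2)
    exact ⟨w, hw1, W, hW⟩

theorem spider_diam {n K p d : ℕ} (hK : 0 < K) (hp : 1 ≤ p) (hd : 1 ≤ d) (hn : K * (p + d) ≤ n) :
    DiameterAtMost d (spider n K p d) := by
  have hled : ∀ u, lev K p d u ≤ d := by intro u; unfold lev; omega
  intro u v
  by_cases hab : lev K p d u + lev K p d v + 1 ≤ d
  · obtain ⟨w, hw, W, hW⟩ := down hK hp hn u
    obtain ⟨w', hw', W', hW'⟩ := down hK hp hn v
    by_cases hww : w = w'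
    · subst hww
      refine ⟨W.reverse.append W', ?_⟩
      rw [SimpleGraph.Walk.length_append, SimpleGraph.Walk.length_reverse]
      omega
    · have hadj : (spider n K p d).Adj w w' := ⟨hww, Or.inl ⟨hw, hw'⟩⟩
      refine ⟨W.reverse.append (SimpleGraph.Walk.cons hadj W'), ?_⟩
      rw [SimpleGraph.Walk.length_append, SimpleGraph.Walk.length_reverse,
        SimpleGraph.Walk.length_cons]
      omega
  · obtain ⟨h, hh, -⟩ := ex_lev hp hn 0 d hK le_rfl
    have hup : ∀ x : Fin n, lev K p d x < d → ∃ W : (spider n K p d).Walk x h,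
        W.length ≤ d - lev K p d x := by
      intro x hx
      exact vert hK hp hn (d - lev K p d x) (lev K p d x) x h rfl (by omega) (by omega)
        (Or.inl (by omega))
    have hdd : ∀ x y : Fin n, lev K p d x = d → lev K p d y = d →
        ∃ W : (spider n K p d).Walk x y, W.length ≤ 1 := by
      intro x y hx hy
      by_cases hxy : x = y
      · subst hxy
        exact ⟨SimpleGraph.Walk.nil, by simp⟩
      · exact ⟨SimpleGraph.Walk.cons ⟨hxy, Or.inr (Or.inl ⟨hx, hy⟩)⟩ SimpleGraph.Walk.nil, by simp⟩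
    by_cases hu : lev K p d u = d
    · by_cases hv : lev K p d v = d
      · obtain ⟨W, hW⟩ := hdd u v hu hv
        exact ⟨W, by omega⟩
      · obtain ⟨W, hW⟩ := vert hK hp hn (d - lev K p d v) (lev K p d v) v u rfl
          (by have := hled v; omega) (by have := hled v; omega) (Or.inl (by have := hled v; omega))
        exact ⟨W.reverse, by rw [SimpleGraph.Walk.length_reverse]; omega⟩
    · by_cases hv : lev K p d v = d
      · obtain ⟨W, hW⟩ := vert hK hp hn (d - lev K p d u) (lev K p d u) u v rfl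
          (by have := hled u; omega) (by have := hled u; omega) (Or.inl (by have := hled u; omega))
        exact ⟨W, by omega⟩
      · obtain ⟨W, hW⟩ := hup u (by have := hled u; omega)
        obtain ⟨W', hW'⟩ := hup v (by have := hled v; omega)
        refine ⟨W.append W'.reverse, ?_⟩
        rw [SimpleGraph.Walk.length_append, SimpleGraph.Walk.length_reverse]
        omega

theorem spider_far {n K p d : ℕ} (hK : 0 < K) (hp : 1 ≤ p) (hd : 2 ≤ d) (hn : K * (p + d) ≤ n)
    (i j : Fin K) (hij : i ≠ j) (H : SimpleGraph (Fin n)) (hH : H ≤ spider n K p d)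
    (hH' : ∀ u v, blk n K p d hK u = some i → blk n K p d hK v = some j → ¬ H.Adj u v) :
    ¬ DiameterAtMost d H := by
  intro hdiam
  have hled : ∀ u, lev K p d u ≤ d := by intro u; unfold lev; omega
  obtain ⟨u0, hu1, hu2⟩ := ex_lev hp hn i (d - 1) i.2 (by omega)
  obtain ⟨v0, hv1, hv2⟩ := ex_lev hp hn j 0 j.2 (by omega)
  let φ : Fin n → ℕ := fun v =>
    if lev K p d v = d then 1 else if (v : ℕ) % K = i then d - 1 - lev K p d v
      else if lev K p d v = 0 ∧ (v : ℕ) % K ≠ j then d else d + 1 - lev K p d v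
  have hij' : (i : ℕ) ≠ j := fun h => hij (Fin.ext h)
  have hstep : ∀ x y, H.Adj x y → φ y ≤ φ x + 1 := by
    intro x y hxy
    have h1 := hH hxy
    have hx := hled x
    have hy := hled y
    have e1 : ¬ (lev K p d x = 0 ∧ (x : ℕ) % K = i ∧ lev K p d y = 0 ∧ (y : ℕ) % K = j) := by
      rintro ⟨a1, a2, a3, a4⟩
      exact hH' x y (blk_some.2 ⟨a1, a2⟩) (blk_some.2 ⟨a3, a4⟩) hxy
    obtain ⟨-, h1⟩ := h1
    simp only [φ]
    split_ifs <;> omega
  have hwalk : ∀ (x y : Fin n) (W : H.Walk x y), φ y ≤ φ x + W.length := by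
    intro x y W
    induction W with
    | nil => simp
    | cons h W ih =>
      have := hstep _ _ h
      rw [SimpleGraph.Walk.length_cons]
      omega
  obtain ⟨W, hW⟩ := hdiam u0 v0
  have h1 := hwalk _ _ W
  have h2 : φ u0 = 0 := by
    simp only [φ]
    split_ifs <;> omega
  have h3 : φ v0 = d + 1 := by
    simp only [φ]
    split_ifs <;> omega
  omega

/-- the case of small `d` -/
theorem main_diam {K n q p d : ℕ} (hK : 0 < K) [hp : Fact p.Prime] (hd : 2 ≤ d)
    (hn : K * (p + d) ≤ n) (hP : GP n q (fun G : SimpleGraph (Fin n) => DiameterAtMost d G))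
    (hq : q < K.choose 2 * p ^ 2) : False := by
  have hp1 : 1 ≤ p := hp.out.one_lt.le
  exact main_crit hP (blk n K p d hK) (spider n K p d)
    (blk_card hK (by omega) (by
      have : K * p ≤ K * (p + d) := Nat.mul_le_mul_left K (by omega)
      omega))
    (fun u v w h1 h2 h3 h4 => blk_twin hK u v w h1 h2 h3 h4)
    (spider_diam hK hp1 (by omega) hn)
    (fun i j hij H h1 h2 => spider_far hK hp1 hd hn i j hij H h1 h2) hq

end Pool.Agent.V5helper63.RS
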