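import Mathlib
import Pool.Agent.V5helper63.RS.H
import Pool.Agent.V5helper63.RS.S
import Pool.Agent.V5helper63.RS.F2

set_option autoImplicit false
set_option linter.unusedSectionVars false

/-!
MP_257582_lc: the hypothesis of the theorem and two examples.
-/

namespace Pool.Agent.V5helper63.RS

open Finset
open Pool.Agent.H119R2.Kp

/-- There is a graph `G` in `P` with `K` disjoint sets of `p` twins each, `p` a prime, which contain
all except at most `δ n` vertices, such that no subgraph of `G` without edges between two of these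
sets is in `P`. -/
def Critical (K : ℕ) (δ : ℝ) {n : ℕ} (P : SimpleGraph (Fin n) → Prop) : Prop :=
  ∃ (p : ℕ) (c : Fin n → Option (Fin K)) (G : SimpleGraph (Fin n)),
    p.Prime ∧ (1 - δ) * n ≤ K * p ∧ (∀ i, {u | c u = some i}.ncard = p) ∧
    (∀ u v w, u ≠ w → v ≠ w → c u = c v → c u ≠ none → (G.Adj u w ↔ G.Adj v w)) ∧ P G ∧
    ∀ i j, i ≠ j → ∀ H : SimpleGraph (Fin n), H ≤ G →
      (∀ u v, c u = some i → c v = some j → ¬ H.Adj u v) → ¬ P H

/-- On the blow-ups of graphs with `K` vertices `P` is given by a monotone isomorphism-invariant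
property of graphs on `K` vertices which holds for the cycle of length `K`, but not for the graph
without edges; or all blow-ups of the cycle of length `K` have `P`, but the graph consisting of `K`
disjoint cliques and universal vertices does not have `P`; or there is a critical graph. -/
def Between (K : ℕ) (δ : ℝ) {n : ℕ} (P : SimpleGraph (Fin n) → Prop) : Prop :=
  (∃ Q : SimpleGraph (Fin K) → Prop, (∀ I J, I ≤ J → Q I → Q J) ∧
    (∀ (σ : Fin K ≃ Fin K) (I : SimpleGraph (Fin K)), Q I → Q (I.map σ.toEmbedding)) ∧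
    ¬ Q ⊥ ∧ Q (SimpleGraph.cycleGraph K) ∧ ∀ I G, BlowUp K δ I G → (P G ↔ Q I)) ∨
  ((∀ I, Nonempty (SimpleGraph.cycleGraph K ≃g I) → ∀ G, BlowUp K δ I G → P G) ∧
    ¬ P (cliquesCone n K)) ∨
  Critical K δ P

theorem sum_class {K n : ℕ} (c : Fin n → Fin K) : ∑ i, {u | c u = i}.ncard = n := by
  classical
  have h : ∀ i, {u | c u = i}.ncard = (univ.filter (fun u => c u = i)).card := by
    intro i
    rw [← Set.ncard_coe_finset]
    congr 1
    ext u
    simp
  simp only [h]
  rw [← Finset.card_eq_sum_card_fiberwise (fun u _ => Finset.mem_univ (c u)), Finset.card_univ,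
    Fintype.card_fin]

theorem blowUp_tree {K n : ℕ} {δ : ℝ} (I : SimpleGraph (Fin K)) (hI : I.Connected)
    (G : SimpleGraph (Fin n)) (h : BlowUp K δ I G) : CliqueTree K δ G := by
  classical
  obtain ⟨c, C, h1, h2, h3, h4, -⟩ := h
  refine ⟨c, C, I, hI, h3, ?_, h2, h4⟩
  intro i
  by_cases hi : (i : ℕ) ≠ 0
  · exact (h1 i hi).ge
  · have hs := sum_class c
    rw [← Finset.add_sum_erase _ _ (Finset.mem_univ i)] at hs
    have h5 : ∑ j ∈ univ.erase i, {u | c u = j}.ncard = (K - 1) * (n / K) := by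
      rw [Finset.sum_congr rfl (fun j hj => h1 j ?_), Finset.sum_const, smul_eq_mul,
        Finset.card_erase_of_mem (Finset.mem_univ i), Finset.card_univ, Fintype.card_fin]
      have hj' := Finset.ne_of_mem_erase hj
      intro h0
      apply hj'
      apply Fin.ext
      omega
    rw [h5] at hs
    have h6 : K * (n / K) ≤ n := Nat.mul_div_le n K
    have h7 : 1 ≤ K := by
      have := i.2
      omega
    obtain ⟨k, rfl⟩ : ∃ k, K = k + 1 := ⟨K - 1, by omega⟩
    rw [Nat.add_sub_cancel] at hs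
    rw [add_mul, one_mul] at h6
    omega

theorem blowUp_disc {K n : ℕ} {δ : ℝ} (hK : 1 ≤ K) (I : SimpleGraph (Fin K)) (hI : ¬ I.Connected)
    (G : SimpleGraph (Fin n)) (h : BlowUp K δ I G) :
    ∃ j, 1 ≤ j ∧ j < K ∧ ∃ e : Fin n ≃ Fin n, ∀ u v, G.Adj u v →
      (twoCliques n (j * (n / K))).Adj (e u) (e v) := by
  classical
  obtain ⟨c, C, h1, h2, h3, h4, h5⟩ := h
  let o : Fin K := ⟨0, by omega⟩
  have hg1 : ∃ g1, ¬ I.Reachable o g1 := by
    by_contra hcon
    push Not at hcon
    apply hI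
    have : Nonempty (Fin K) := ⟨o⟩
    exact ⟨fun a b => (hcon a).symm.trans (hcon b)⟩
  obtain ⟨g1, hg1⟩ := hg1
  let N : Finset (Fin K) := univ.filter (fun g => ¬ I.Reachable o g)
  let Q : Fin n → Prop := fun u => ¬ I.Reachable o (c u)
  have hQ : ∀ u v, G.Adj u v → (Q u ↔ Q v) := by
    intro u v huv
    rcases h5 u v huv with h | h
    · simp only [Q, h]
    · constructor
      · intro h6 h7
        exact h6 (h7.trans h.symm.reachable)
      · intro h6 h7
        exact h6 (h7.trans h.reachable)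
  have hN0 : ∀ g ∈ N, (g : ℕ) ≠ 0 := by
    intro g hg h0
    rw [Finset.mem_filter] at hg
    apply hg.2
    have : g = o := Fin.ext h0
    rw [this]
  have hcard : (univ.filter Q).card = N.card * (n / K) := by
    have h6 : univ.filter Q = N.biUnion (fun g => univ.filter (fun u => c u = g)) := by
      ext u
      simp only [Finset.mem_filter, Finset.mem_univ, true_and, Finset.mem_biUnion, Q, N]
      constructor
      · intro h
        exact ⟨c u, h, rfl⟩
      · rintro ⟨g, h, hg⟩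
        rw [hg]
        exact h
    have h7 : ∀ g ∈ N, (univ.filter (fun u => c u = g)).card = n / K := by
      intro g hg
      rw [← h1 g (hN0 g hg), ← Set.ncard_coe_finset]
      congr 1
      ext u
      simp
    rw [h6, Finset.card_biUnion, Finset.sum_congr rfl h7, Finset.sum_const, smul_eq_mul]
    intro g _ g' _ hgg
    simp only [Function.onFun]
    rw [Finset.disjoint_filter]
    intro v _ h2 h3
    exact hgg (h2.symm.trans h3)
  have hN1 : 1 ≤ N.card := by
    rw [Nat.one_le_iff_ne_zero, ← Nat.pos_iff_ne_zero, Finset.card_pos]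
    exact ⟨g1, by rw [Finset.mem_filter]; exact ⟨Finset.mem_univ _, hg1⟩⟩
  have hN2 : N.card < K := by
    have h6 : N.card < (univ : Finset (Fin K)).card := by
      apply Finset.card_lt_card
      rw [Finset.ssubset_univ_iff]
      intro h
      exact hN0 o (by rw [h]; exact Finset.mem_univ _) rfl
    rwa [Finset.card_univ, Fintype.card_fin] at h6
  obtain ⟨e, he⟩ := exists_equiv_pred (n := n) (Fintype.card_fin n) Q hcard
  refine ⟨N.card, hN1, hN2, e, ?_⟩
  intro u v huv
  refine ⟨fun h => huv.ne (e.injective h), ?_⟩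
  rw [← he, ← he]
  exact hQ u v huv

theorem between_of {K n : ℕ} {δ : ℝ} (hK : 2 ≤ K) {P : SimpleGraph (Fin n) → Prop}
    (hmono : ∀ G H : SimpleGraph (Fin n), G ≤ H → P G → P H)
    (hiso : ∀ (σ : Fin n ≃ Fin n) (G : SimpleGraph (Fin n)), P G → P (G.map σ.toEmbedding))
    (h1 : ∀ G, CliqueTree K δ G → P G)
    (h2 : ∀ j, 1 ≤ j → j < K → ¬ P (twoCliques n (j * (n / K)))) : Between K δ P := by
  left
  refine ⟨fun I => I.Connected, fun I J hIJ hI => hI.mono hIJ, ?_, ?_, ?_, ?_⟩
  · intro σ I hI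
    exact (SimpleGraph.Iso.map σ I).connected_iff.1 hI
  · intro h
    have h3 := h.preconnected ⟨0, by omega⟩ ⟨1, by omega⟩
    rw [SimpleGraph.reachable_bot] at h3
    simp at h3
  · obtain ⟨k, rfl⟩ : ∃ k, K = k + 1 := ⟨K - 1, by omega⟩
    exact SimpleGraph.cycleGraph_connected
  · intro I G hIG
    constructor
    · intro hG
      by_contra hcon
      obtain ⟨j, hj1, hj2, e, he⟩ := blowUp_disc (by omega) I hcon G hIG
      refine h2 j hj1 hj2 (hmono _ _ ?_ (hiso e _ hG))
      intro u v huv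
      rw [SimpleGraph.map_adj] at huv
      obtain ⟨a, b, hab, rfl, rfl⟩ := huv
      exact he a b hab
    · intro hI
      exact h1 G (blowUp_tree I hI G hIG)

/-- properties between a power of the Hamiltonian path and disjoint cliques -/
theorem between_path {K n : ℕ} {δ : ℝ} (hδ : δ ≤ 1 / (3 * K)) (hK : 3 ≤ K) (hn : 6 * K ≤ n)
    {P : SimpleGraph (Fin n) → Prop}
    (hmono : ∀ G H : SimpleGraph (Fin n), G ≤ H → P G → P H)
    (hiso : ∀ (σ : Fin n ≃ Fin n) (G : SimpleGraph (Fin n)), P G → P (G.map σ.toEmbedding))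
    (hP : P (pathPower n (n / (6 * K ^ 3))))
    (h : (∀ j, 1 ≤ j → j < K → ¬ P (twoCliques n (j * (n / K)))) ∨ ¬ P (cliquesCone n K)) :
    Between K δ P := by
  have htop : ∀ G, CliqueTree K δ G → P G := by
    intro G hG
    obtain ⟨σ, hσ⟩ := cliqueTree_path (by omega) hn hδ G hG
    have h1 := hiso σ.symm _ (hmono _ _ hσ hP)
    rw [SimpleGraph.map_map] at h1
    have h2 : (⇑σ.symm.toEmbedding ∘ ⇑σ.toEmbedding) = id := by
      funext v
      simp
    rw [h2, SimpleGraph.map_id] at h1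
    exact h1
  rcases h with h | h
  · exact between_of (by omega) hmono hiso htop h
  · right
    left
    refine ⟨fun I hI G hG => htop G (blowUp_tree I ?_ G hG), h⟩
    obtain ⟨φ⟩ := hI
    rw [← φ.connected_iff]
    obtain ⟨k, rfl⟩ : ∃ k, K = k + 1 := ⟨K - 1, by omega⟩
    exact SimpleGraph.cycleGraph_connected

/-- diameter at most `d` for large `d` -/
theorem between_diam {K n d : ℕ} {δ : ℝ} (hδ : δ ≤ 1 / (3 * K)) (hK : 3 ≤ K)
    (hn : 6 * K ≤ n) (hd : K + 1 ≤ d) :
    Between K δ (fun G : SimpleGraph (Fin n) => DiameterAtMost d G) := by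
  have hKr : (3 : ℝ) ≤ K := by exact_mod_cast hK
  have hnr : 6 * (K : ℝ) ≤ n := by exact_mod_cast hn
  have hm : 1 ≤ n / K := by
    rw [Nat.le_div_iff_mul_le (by omega)]
    omega
  apply between_of (by omega) (fun G H => diam_mono G H) (fun σ G => diam_iso σ G)
  · intro G hG
    have h1 := cliqueTree_diam (K := K) (n := n) (δ := δ) (by
      have h7 : n < K * (n / K) + K := by
        have := Nat.div_add_mod n K
        have h8 := Nat.mod_lt n (show 0 < K by omega)
        omega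
      have h7r : (n : ℝ) < K * ((n / K : ℕ) : ℝ) + K := by exact_mod_cast h7
      have h9 : δ * n ≤ 1 / (3 * K) * n := mul_le_mul_of_nonneg_right hδ (Nat.cast_nonneg n)
      refine lt_of_le_of_lt h9 ?_
      rw [one_div, inv_mul_lt_iff₀ (by linarith)]
      nlinarith) G hG
    intro u v
    obtain ⟨W, hW⟩ := h1 u v
    exact ⟨W, hW.trans hd⟩
  · intro j hj1 hj2
    apply diam_two
    · exact Nat.mul_pos hj1 hm
    · have h1 : K * (n / K) ≤ n := Nat.mul_div_le n K
      have h2 : j * (n / K) < K * (n / K) := Nat.mul_lt_mul_of_pos_right hj2 hm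
      omega

/-- diameter at most `d` -/
theorem between_diam' (K : ℕ) (hK : 3 ≤ K) (δ : ℝ) (hδ0 : 0 < δ) (hδ : δ ≤ 1 / (3 * K)) :
    ∃ N : ℕ, ∀ n : ℕ, N ≤ n → ∀ d : ℕ, 2 ≤ d →
      Between K δ (fun G : SimpleGraph (Fin n) => DiameterAtMost d G) := by
  obtain ⟨N, hN⟩ := numbers2 K hK (δ / 2) 1 (by linarith) one_pos
  refine ⟨N + K * K + 6 * K + ⌈2 * (K * K) / δ⌉₊, fun n hn d hd => ?_⟩
  by_cases hdK : K + 1 ≤ d
  · exact between_diam hδ hK (by omega) hdK
  · right
    right
    obtain ⟨p, x, hp, h1, h2, -⟩ := hN (n - K * K) (by omega)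
    have h3 : K * p + (K * x + (n - K * K) % K) + K * K = n := by
      have h4 : K * (x + p) = K * x + K * p := Nat.mul_add K x p
      omega
    have h5 : K * (p + d) ≤ n := by
      have h6 : K * d ≤ K * K := Nat.mul_le_mul_left K (by omega)
      have h7 : K * (p + d) = K * p + K * d := Nat.mul_add K p d
      omega
    have hK0 : 0 < K := by omega
    have hp1 : 1 ≤ p := hp.one_lt.le
    refine ⟨p, blk n K p d hK0, spider n K p d, hp, ?_, blk_card hK0 (by omega) (by
      have : K * p ≤ K * (p + d) := Nat.mul_le_mul_left K (by omega)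
      omega), fun u v w h1 h2 h3 h4 => blk_twin hK0 u v w h1 h2 h3 h4,
      spider_diam hK0 hp1 (by omega) h5,
      fun i j hij H h1 h2 => spider_far hK0 hp1 hd h5 i j hij H h1 h2⟩
    have h8 : (K : ℝ) * p + ((K * x + (n - K * K) % K : ℕ) : ℝ) + K * K = n := by exact_mod_cast h3
    have h9 : ((n - K * K : ℕ) : ℝ) ≤ n := by exact_mod_cast Nat.sub_le n (K * K)
    have h10 : ⌈2 * ((K : ℝ) * K) / δ⌉₊ ≤ n := by omega
    have h11 : 2 * ((K : ℝ) * K) / δ ≤ n := (Nat.le_ceil _).trans (by exact_mod_cast h10)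
    rw [div_le_iff₀ hδ0] at h11
    have h12 : δ / 2 * ((n - K * K : ℕ) : ℝ) ≤ δ / 2 * n :=
      mul_le_mul_of_nonneg_left h9 (by linarith)
    nlinarith

theorem twoCliques_not_connected {n a : ℕ} (h1 : 1 ≤ a) (h2 : a < n) :
    ¬ (twoCliques n a).Connected := by
  intro h
  obtain ⟨W⟩ := h.preconnected ⟨0, by omega⟩ ⟨a, h2⟩
  exact diam_two (d := n) h1 h2 (fun u v => by
    obtain ⟨W'⟩ := h.preconnected u v
    classical
    refine ⟨W'.toPath, ?_⟩
    have h3 := W'.toPath.2.length_lt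
    rw [Fintype.card_fin] at h3
    exact h3.le)

/-- properties which contain a power of the Hamiltonian path, but no disconnected graph or not the
graph consisting of disjoint cliques and universal vertices -/
theorem between_path' {K n : ℕ} {δ : ℝ} (hδ : δ ≤ 1 / (3 * K)) (hK : 3 ≤ K) (hn : 6 * K ≤ n)
    {P : SimpleGraph (Fin n) → Prop}
    (hmono : ∀ G H : SimpleGraph (Fin n), G ≤ H → P G → P H)
    (hiso : ∀ (σ : Fin n ≃ Fin n) (G : SimpleGraph (Fin n)), P G → P (G.map σ.toEmbedding))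
    (hP : P (pathPower n (n / (6 * K ^ 3))))
    (h : (∀ G, P G → G.Connected) ∨ ¬ P (cliquesCone n K)) :
    Between K δ P := by
  refine between_path hδ hK hn hmono hiso hP (h.imp (fun h j hj1 hj2 hP' => ?_) id)
  have hm : 1 ≤ n / K := by
    rw [Nat.le_div_iff_mul_le (by omega)]
    omega
  have h1 : K * (n / K) ≤ n := Nat.mul_div_le n K
  have h2 : j * (n / K) < K * (n / K) := Nat.mul_lt_mul_of_pos_right hj2 hm
  exact twoCliques_not_connected (Nat.mul_pos hj1 hm) (by omega) (h _ hP')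

/-- the theorem -/
theorem main4 {K n q : ℕ} [hKp : Fact K.Prime] (hK : 3 ≤ K) {P : SimpleGraph (Fin n) → Prop}
    (hP : GP n q P) (x p : ℕ) (δ : ℝ) [hp : Fact p.Prime] (hn : K * (x + p) + n % K = n)
    (hδ : ((K * x + n % K : ℕ) : ℝ) ≤ δ * n) (hq : q < K.choose 2 * p ^ 2)
    (hδ0 : 0 < δ) (hq' : (q : ℝ) < (1 / 2 - 1 / (2 * K) - δ) * (n : ℝ) ^ 2)
    (h : Between K δ P) : False := by
  rcases h with h | h | ⟨p', c, G, hp', hpn, hc, htw, hG, hij⟩
  · exact main3 hK hP x (n % K) p δ hn (Nat.mod_lt _ (by omega)) hδ hq (Or.inl h)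
  · exact main3 hK hP x (n % K) p δ hn (Nat.mod_lt _ (by omega)) hδ hq (Or.inr h)
  · have hpf : Fact p'.Prime := ⟨hp'⟩
    refine main_crit hP c G hc htw hG hij ?_
    have h1 : ((K.choose 2 : ℕ) : ℝ) = K * (K - 1) / 2 := Nat.cast_choose_two ℝ K
    have hKr : (3 : ℝ) ≤ K := by exact_mod_cast hK
    have h0 : (0 : ℝ) ≤ q := Nat.cast_nonneg q
    have hn0 : (0 : ℝ) ≤ (n : ℝ) ^ 2 := sq_nonneg _
    have h5 : (0 : ℝ) ≤ 1 / 2 - 1 / (2 * K) := by
      rw [sub_nonneg]
      apply one_div_le_one_div_of_le <;> linarith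
    have h6 : (1 / 2 - 1 / (2 * (K : ℝ))) ≤ 1 / 2 := by
      have : (0 : ℝ) < 1 / (2 * K) := by positivity
      linarith
    have hδ1 : δ < 1 := by
      by_contra hcon
      push Not at hcon
      have h7 : (1 / 2 - 1 / (2 * (K : ℝ)) - δ) * (n : ℝ) ^ 2 ≤ 0 :=
        mul_nonpos_of_nonpos_of_nonneg (by linarith) hn0
      linarith
    have h2 : (q : ℝ) < ((K.choose 2 * p' ^ 2 : ℕ) : ℝ) := by
      push_cast
      rw [h1]
      refine lt_of_lt_of_le hq' ?_
      have h3 : ((1 - δ) * n) ^ 2 ≤ (K * (p' : ℝ)) ^ 2 :=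
        pow_le_pow_left₀ (mul_nonneg (by linarith) (Nat.cast_nonneg n)) hpn 2
      have h4 : (K : ℝ) * (K - 1) / 2 * p' ^ 2 = (1 / 2 - 1 / (2 * K)) * (K * (p' : ℝ)) ^ 2 := by
        field_simp
      rw [h4]
      have h7 : (1 - 2 * δ) * (n : ℝ) ^ 2 ≤ ((1 - δ) * n) ^ 2 := by
        nlinarith [mul_nonneg (sq_nonneg δ) (sq_nonneg (n : ℝ))]
      have h8 : (1 / 2 - 1 / (2 * (K : ℝ))) * ((1 - 2 * δ) * (n : ℝ) ^ 2) ≤
          (1 / 2 - 1 / (2 * K)) * (K * (p' : ℝ)) ^ 2 :=
        mul_le_mul_of_nonneg_left (h7.trans h3) h5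
      refine le_trans ?_ h8
      have h9 : (1 / 2 - 1 / (2 * (K : ℝ))) * (2 * δ) ≤ δ := by
        calc (1 / 2 - 1 / (2 * (K : ℝ))) * (2 * δ) ≤ (1 / 2) * (2 * δ) :=
              mul_le_mul_of_nonneg_right h6 (by linarith)
          _ = δ := by ring
      nlinarith [mul_nonneg (sub_nonneg.2 h9) (sq_nonneg (n : ℝ))]
    exact_mod_cast h2

end Pool.Agent.V5helper63.RS
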