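import Mathlib
import Pool.Agent.H119R2.Kp.NT

set_option autoImplicit false

/-! MP_257582_lc: choice of the prime. -/

namespace Pool.Agent.V5helper63.RS

open Finset

theorem numbers (K : ℕ) (hK : 3 ≤ K) (ε : ℝ) (hε : 0 < ε) :
    ∃ N : ℕ, ∀ n : ℕ, N ≤ n → ∃ p x : ℕ, p.Prime ∧ K * (x + p) + n % K = n ∧
      (2 * K ^ 2 + 1) * (n / (6 * K ^ 3)) ≤ p ∧
      ∀ q : ℕ, (q : ℝ) < (1 / 2 - 1 / (2 * K) - ε) * (n : ℝ) ^ 2 → q < K.choose 2 * p ^ 2 := by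
  obtain ⟨δ, hδ0, hδ1, hδ2⟩ : ∃ δ : ℝ, 0 < δ ∧ δ ≤ 1 / 8 ∧ 2 * δ ≤ ε :=
    ⟨min (ε / 2) (1 / 8), lt_min (by linarith) (by norm_num), min_le_right _ _, by
      have := min_le_left (ε / 2) (1 / 8 : ℝ)
      linarith⟩
  obtain ⟨N0, hN0⟩ := Pool.Agent.H119R2.Kp.prime_between δ hδ0
  have hKr : (3 : ℝ) ≤ K := by exact_mod_cast hK
  have hK0 : (0 : ℝ) < K := by linarith
  refine ⟨K * (2 * N0 + 2) + ⌈(K : ℝ) / δ⌉₊ + 8 * K, fun n hn => ?_⟩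
  have hn1 : K * (2 * N0 + 2) ≤ n := by omega
  have hn2 : ⌈(K : ℝ) / δ⌉₊ ≤ n := by omega
  have hn3 : 8 * K ≤ n := by omega
  have hn2' : (K : ℝ) / δ ≤ n := (Nat.le_ceil _).trans (by exact_mod_cast hn2)
  have hn3' : 8 * (K : ℝ) ≤ n := by exact_mod_cast hn3
  have hKn : (K : ℝ) ≤ δ * n := by
    rw [div_le_iff₀ hδ0] at hn2'
    linarith
  obtain ⟨m, hm⟩ : ∃ m, m = n / K := ⟨_, rfl⟩
  have hdiv : K * m + n % K = n := by rw [hm]; exact Nat.div_add_mod n K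
  have hmod : n % K < K := Nat.mod_lt _ (by omega)
  have hdivr : (K : ℝ) * m + ((n % K : ℕ) : ℝ) = n := by exact_mod_cast hdiv
  have hmodr : ((n % K : ℕ) : ℝ) < K := by exact_mod_cast hmod
  have hmN : 2 * N0 + 2 ≤ m := by
    rw [hm, Nat.le_div_iff_mul_le (by omega)]
    rw [mul_comm]
    exact hn1
  have hmNr : 2 * (N0 : ℝ) + 2 ≤ m := by exact_mod_cast hmN
  have h1δ : (0 : ℝ) < 1 + δ := by linarith
  obtain ⟨p, hp, hp1, hp2⟩ := hN0 ((m : ℝ) / (1 + δ)) (by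
    rw [le_div_iff₀ h1δ]
    nlinarith [Nat.cast_nonneg (α := ℝ) N0])
  rw [mul_div_cancel₀ _ h1δ.ne'] at hp2
  have hpm : p < m := by exact_mod_cast hp2
  rw [div_lt_iff₀ h1δ] at hp1
  -- `p ≥ (1 - 2δ) n / K`
  have hpK : (1 - 2 * δ) * n ≤ K * p := by
    have h1 : (m : ℝ) * (1 - δ) ≤ p := by nlinarith
    have h2 : (n : ℝ) - K ≤ K * m := by linarith
    have h3 : ((n : ℝ) - K) * (1 - δ) ≤ K * p := by
      calc ((n : ℝ) - K) * (1 - δ) ≤ (K * m) * (1 - δ) :=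
            mul_le_mul_of_nonneg_right h2 (by linarith)
        _ = K * (m * (1 - δ)) := by ring
        _ ≤ K * p := mul_le_mul_of_nonneg_left h1 hK0.le
    nlinarith
  have hn0 : (0 : ℝ) < n := by nlinarith
  refine ⟨p, m - p, hp, ?_, ?_, ?_⟩
  · rw [Nat.sub_add_cancel hpm.le]
    exact hdiv
  · obtain ⟨w, hw⟩ : ∃ w, w = n / (6 * K ^ 3) := ⟨_, rfl⟩
    have h1 : (6 * K ^ 3) * w ≤ n := by rw [hw]; exact Nat.mul_div_le _ _
    have h1r : 6 * (K : ℝ) ^ 3 * w ≤ n := by exact_mod_cast h1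
    have h2 : (((2 * K ^ 2 + 1) * w : ℕ) : ℝ) ≤ p := by
      push_cast
      have hw0 : (0 : ℝ) ≤ w := Nat.cast_nonneg _
      have h3 : K * ((2 * (K : ℝ) ^ 2 + 1) * w) ≤ K * p := by
        have h4 : K * ((2 * (K : ℝ) ^ 2 + 1) * w) ≤ (1 / 2) * (6 * (K : ℝ) ^ 3 * w) := by
          have h5 : (K : ℝ) ≤ K ^ 3 := by nlinarith [sq_nonneg ((K : ℝ) - 1)]
          nlinarith [mul_le_mul_of_nonneg_right h5 hw0]
        have h6 : (1 / 2 : ℝ) * n ≤ (1 - 2 * δ) * n :=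
          mul_le_mul_of_nonneg_right (by linarith) hn0.le
        linarith
      exact le_of_mul_le_mul_left h3 hK0
    rw [← hw]
    exact_mod_cast h2
  · intro q hq
    have h1 : ((K.choose 2 : ℕ) : ℝ) = K * (K - 1) / 2 := Nat.cast_choose_two ℝ K
    have h2 : (q : ℝ) < ((K.choose 2 * p ^ 2 : ℕ) : ℝ) := by
      push_cast
      rw [h1]
      refine lt_of_lt_of_le hq ?_
      have h3 : ((1 - 2 * δ) * n) ^ 2 ≤ (K * (p : ℝ)) ^ 2 :=
        pow_le_pow_left₀ (mul_nonneg (by linarith) hn0.le) hpK 2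
      have h4 : (K : ℝ) * (K - 1) / 2 * p ^ 2 = (1 / 2 - 1 / (2 * K)) * (K * (p : ℝ)) ^ 2 := by
        field_simp
      rw [h4]
      have h5 : (0 : ℝ) ≤ 1 / 2 - 1 / (2 * K) := by
        rw [sub_nonneg]
        apply one_div_le_one_div_of_le <;> linarith
      have h6 : (1 / 2 - 1 / (2 * (K : ℝ))) ≤ 1 / 2 := by
        have : (0 : ℝ) < 1 / (2 * K) := by positivity
        linarith
      have h7 : (1 - 4 * δ) * (n : ℝ) ^ 2 ≤ ((1 - 2 * δ) * n) ^ 2 := by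
        nlinarith [mul_nonneg (sq_nonneg δ) (sq_nonneg (n : ℝ))]
      have h8 : (1 / 2 - 1 / (2 * (K : ℝ))) * ((1 - 4 * δ) * (n : ℝ) ^ 2) ≤
          (1 / 2 - 1 / (2 * K)) * (K * (p : ℝ)) ^ 2 :=
        mul_le_mul_of_nonneg_left (h7.trans h3) h5
      refine le_trans ?_ h8
      have h9 : (1 / 2 - 1 / (2 * (K : ℝ))) * (4 * δ) ≤ ε := by
        calc (1 / 2 - 1 / (2 * (K : ℝ))) * (4 * δ) ≤ (1 / 2) * (4 * δ) :=
              mul_le_mul_of_nonneg_right h6 (by linarith)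
          _ ≤ ε := by linarith
      nlinarith [mul_nonneg (sub_nonneg.2 h9) (sq_nonneg (n : ℝ))]
    exact_mod_cast h2

end Pool.Agent.V5helper63.RS
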